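import Pool.Agent.CY.Sob

/-!
Project CY, part S1: notation.  The box `[0, L] × [-L, L]^n` of `Fin (n+1) → ℝ`.
-/

set_option autoImplicit false

open MeasureTheory Set Function

namespace Pool.Agent.CY.S1

noncomputable section

/-- The lower corner `(0, -L, …, -L)`. -/
def bxa (n : ℕ) (L : ℝ) : Fin (n + 1) → ℝ := (0 : Fin (n + 1)).insertNth 0 (fun _ => -L)

/-- The upper corner `(L, …, L)`. -/
def bxb (n : ℕ) (L : ℝ) : Fin (n + 1) → ℝ := fun _ => L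

/-- `(y₀ + τ)² + y₁² + … + y_n²`. -/
def rho (n : ℕ) (τ : ℝ) (y : Fin (n + 1) → ℝ) : ℝ := (y 0 + τ) ^ 2 + ∑ i : Fin n, y i.succ ^ 2

theorem bxa_zero (n : ℕ) (L : ℝ) : bxa n L 0 = 0 := by simp [bxa]

theorem bxa_succ (n : ℕ) (L : ℝ) (i : Fin n) : bxa n L i.succ = -L := by simp [bxa]

theorem bxb_apply (n : ℕ) (L : ℝ) (i : Fin (n + 1)) : bxb n L i = L := rfl

theorem removeNth_bxa (n : ℕ) (L : ℝ) : (0 : Fin (n + 1)).removeNth (bxa n L) = fun _ => -L := by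
  ext i; simp [bxa]

theorem removeNth_bxb (n : ℕ) (L : ℝ) : (0 : Fin (n + 1)).removeNth (bxb n L) = fun _ => L := rfl

theorem bxa_lt_bxb (n : ℕ) (L : ℝ) (hL : 0 < L) (i : Fin (n + 1)) : bxa n L i < bxb n L i := by
  refine Fin.cases ?_ (fun j => ?_) i
  · rw [bxa_zero, bxb_apply]; exact hL
  · rw [bxa_succ, bxb_apply]; linarith

theorem rho_nonneg (n : ℕ) (τ : ℝ) (y : Fin (n + 1) → ℝ) : 0 ≤ rho n τ y := by
  unfold rho; positivity

theorem continuous_rho (n : ℕ) (τ : ℝ) : Continuous (rho n τ) := by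
  unfold rho; fun_prop

end

end Pool.Agent.CY.S1
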