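import Pool.Agent.CY.S6.Beta

/-!
Project CY, part S1, module Beta: the integral of `(1 + |z|²)^{-α}` over `ℝ^n`.
-/

set_option autoImplicit false

open MeasureTheory Set Function

namespace Pool.Agent.CY.S1

theorem beta_int (n : ℕ) (α : ℝ) (hα : (n : ℝ) / 2 < α) (hα0 : 0 < α) :
    Integrable (fun z : Fin n → ℝ => (1 + ∑ i, z i ^ 2) ^ (-α)) ∧
    ∫ z : Fin n → ℝ, (1 + ∑ i, z i ^ 2) ^ (-α) =
      Real.pi ^ ((n : ℝ) / 2) * Real.Gamma (α - (n : ℝ) / 2) / Real.Gamma α := by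
  have hmp := PiLp.volume_preserving_toLp (Fin n)
  have hme : MeasurableEmbedding (WithLp.toLp 2 : (Fin n → ℝ) → EuclideanSpace ℝ (Fin n)) :=
    (MeasurableEquiv.toLp 2 (Fin n → ℝ)).measurableEmbedding
  have he : ∀ z : Fin n → ℝ, (1 + ∑ i, z i ^ 2) ^ (-α)
      = (fun x : EuclideanSpace ℝ (Fin n) => (1 + ‖x‖ ^ 2) ^ (-α)) (WithLp.toLp 2 z) := by
    intro z
    simp only [EuclideanSpace.norm_sq_eq, Real.norm_eq_abs, sq_abs]
  constructor
  · have h1 := (hmp.integrable_comp_emb hme).2 (S6.integrable_J n hα)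
    refine h1.congr (Filter.Eventually.of_forall fun z => ?_)
    exact (he z).symm
  · simp_rw [he]
    rw [hmp.integral_comp hme (fun x : EuclideanSpace ℝ (Fin n) => (1 + ‖x‖ ^ 2) ^ (-α)),
      S6.integral_J n hα]

end Pool.Agent.CY.S1
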