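import Pool.Agent.CY.S1.Fub

/-!
Project CY, part S1, module Ibp: integration by parts on a box in the direction `i`.

PROOF PLAN.  By `box_fubini` (first formula, applied to `F T'` and `F' T`) it suffices to prove, for
every `z ∈ Icc (i.removeNth a) (i.removeNth b)`,
`∫ s in a i..b i, F (insertNth s z) * T' (insertNth s z) = F(b) T(b) - F(a) T(a) - ∫ s in a i..b i, F' (..) * T (..)`:
`intervalIntegral.integral_mul_deriv_eq_deriv_mul` (version with derivatives inside the interval,
`..._of_hasDeriv_right`/`_of_hasDerivWithinAt`), with `u s = F (i.insertNth s z)`: for `s ∈ Icc (a i) (b i)` the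
point `x = i.insertNth s z` lies in `Icc a b` and `update x i s' = i.insertNth s' z` (`Fin.insertNth`/`update` lemmas),
`x i = s`.  Integrability of the outer integrands: continuity of `z ↦ F (i.insertNth (b i) z) * T (..)` on the box;
subtract by `integral_sub`, `integral_add` (the inner integral of a continuous function is integrable over the
box: use `Integrable.integral_prod_left` or deduce it by linearity from the two other terms: it equals pointwise
the difference of a continuous function of `z` and the inner integral of `F' T`; if needed prove the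
continuity/integrability of `z ↦ ∫ s in a i..b i, G (i.insertNth s z)` for `G` continuous on the box by replacing `G`
with `G ∘ (projection onto the box)`, which is continuous everywhere).
-/

set_option autoImplicit false

open MeasureTheory Set Function

namespace Pool.Agent.CY.S1

theorem ibp (N : ℕ) (i : Fin (N + 1)) (a b : Fin (N + 1) → ℝ) (hab : ∀ j, a j < b j)
    (F T F' T' : (Fin (N + 1) → ℝ) → ℝ) (hF : ContinuousOn F (Icc a b)) (hT : ContinuousOn T (Icc a b))
    (hF' : ContinuousOn F' (Icc a b)) (hT' : ContinuousOn T' (Icc a b))
    (hdF : ∀ x ∈ Icc a b, HasDerivWithinAt (fun s => F (update x i s)) (F' x) (Icc (a i) (b i)) (x i))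
    (hdT : ∀ x ∈ Icc a b, HasDerivWithinAt (fun s => T (update x i s)) (T' x) (Icc (a i) (b i)) (x i)) :
    ∫ x in Icc a b, F x * T' x = (∫ z in Icc (i.removeNth a) (i.removeNth b),
        (F (i.insertNth (b i) z) * T (i.insertNth (b i) z) -
          F (i.insertNth (a i) z) * T (i.insertNth (a i) z))) - ∫ x in Icc a b, F' x * T x := by
  have hmem : ∀ z ∈ Icc (i.removeNth a) (i.removeNth b), ∀ s ∈ Icc (a i) (b i),
      (i.insertNth s z : Fin (N + 1) → ℝ) ∈ Icc a b := by
    intro z hz s hs
    constructor
    · intro j
      refine Fin.succAboveCases i ?_ (fun k => ?_) j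
      · simpa using hs.1
      · simp only [Fin.insertNth_apply_succAbove]
        exact hz.1 k
    · intro j
      refine Fin.succAboveCases i ?_ (fun k => ?_) j
      · simpa using hs.2
      · simp only [Fin.insertNth_apply_succAbove]
        exact hz.2 k
  -- the function G = F T' + F' T, integrated
  have hG : ∫ x in Icc a b, (F x * T' x + F' x * T x) = ∫ z in Icc (i.removeNth a) (i.removeNth b),
        (F (i.insertNth (b i) z) * T (i.insertNth (b i) z) -
          F (i.insertNth (a i) z) * T (i.insertNth (a i) z)) := by
    rw [(box_fubini N i a b (fun j => (hab j).le) (fun x => F x * T' x + F' x * T x)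
      ((hF.mul hT').add (hF'.mul hT))).1]
    refine setIntegral_congr_fun measurableSet_Icc fun z hz => ?_
    have hins : ContinuousOn (fun s : ℝ => (i.insertNth s z : Fin (N + 1) → ℝ)) (Icc (a i) (b i)) := by
      apply Continuous.continuousOn
      exact Continuous.finInsertNth i continuous_id continuous_const
    have hmaps : MapsTo (fun s : ℝ => (i.insertNth s z : Fin (N + 1) → ℝ)) (Icc (a i) (b i)) (Icc a b) :=
      fun s hs => hmem z hz s hs
    have h1 := intervalIntegral.integral_eq_sub_of_hasDerivAt_of_le (hab i).le
      (f := fun s => F (i.insertNth s z) * T (i.insertNth s z))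
      (f' := fun s => F (i.insertNth s z) * T' (i.insertNth s z) + F' (i.insertNth s z) * T (i.insertNth s z))
      ((hF.comp hins hmaps).mul (hT.comp hins hmaps)) (fun s hs => ?_) ?_
    · exact h1
    · have hs' : s ∈ Icc (a i) (b i) := Ioo_subset_Icc_self hs
      have hn : Icc (a i) (b i) ∈ nhds s := Icc_mem_nhds hs.1 hs.2
      have hx := hmem z hz s hs'
      have hup : ∀ s' : ℝ, update (i.insertNth s z : Fin (N + 1) → ℝ) i s' = i.insertNth s' z := by
        intro s'; rw [Fin.update_insertNth]
      have d1 := hdF _ hx
      have d2 := hdT _ hx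
      simp only [Fin.insertNth_apply_same, hup] at d1 d2
      have := (d1.hasDerivAt hn).mul (d2.hasDerivAt hn)
      refine this.congr_deriv ?_
      ring
    · apply ContinuousOn.intervalIntegrable
      rw [uIcc_of_le (hab i).le]
      exact ((hF.comp hins hmaps).mul (hT'.comp hins hmaps)).add
        ((hF'.comp hins hmaps).mul (hT.comp hins hmaps))
  have i1 : IntegrableOn (fun x => F x * T' x) (Icc a b) := (hF.mul hT').integrableOn_compact isCompact_Icc
  have i2 : IntegrableOn (fun x => F' x * T x) (Icc a b) := (hF'.mul hT).integrableOn_compact isCompact_Icc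
  rw [← hG, integral_add i1 i2]
  ring

end Pool.Agent.CY.S1
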