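import Mathlib

/-!
Project CY, part S1, module Mono: one-dimensional monotone transport depending on a parameter.

PROOF PLAN.  Put `Φ p x = ∫ s in a..x, f p s`, `Γ p y = ∫ s in c..y, g p s`; both are jointly continuous
(`intervalIntegral.continuous_parametric_intervalIntegral_of_continuous`), strictly increasing in the second
variable, `Γ p c = 0`, `Γ p d = Φ p b` by `hm`.  For `x` let `x' = max a (min b x)` (clamp); by the intermediate
value theorem there is a unique `y ∈ Icc c d` with `Γ p y = Φ p x'`; choose `T p x = y`.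
Continuity of `T`: for `y₁ < T p₀ x₀ < y₂` with `y₁, y₂ ∈ [c, d]` one has `Γ p₀ y₁ < Φ p₀ x₀' < Γ p₀ y₂`,
an open condition in `(p, x)`, and it implies `y₁ < T p x < y₂` by strict monotonicity; if there is no
`y₁ ∈ [c, d]` below (that is `T p₀ x₀ = c`) nothing is needed as `T ≥ c`; use `tendsto_order`/`continuous_iff`.
Derivative at `x ∈ Icc a b`: on `Icc a b` one has `Γ p (T p x) = Φ p x`.  Either apply the inverse function
theorem `HasDerivAt.of_local_left_inverse`/`HasDerivWithinAt` to `Γ p` (strictly increasing, derivative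
`g p y > 0` everywhere), e.g. `T p x = Γinv (Φ p x)` where `Γinv` is a local inverse of `Γ p` near
`T p x`: since `Γ p : ℝ → ℝ` is continuous, strictly monotone with strict derivative `g p y ≠ 0`,
`HasStrictDerivAt.to_localInverse` + uniqueness gives the derivative of the inverse, and `Φ p` has derivative
`f p x` (`intervalIntegral.integral_hasDerivAt_right`); or directly by the difference quotient.
-/

set_option autoImplicit false

open MeasureTheory Set Function Filter Topology

namespace Pool.Agent.CY.S1

theorem mono_map {P : Type} [TopologicalSpace P] [FirstCountableTopology P] [LocallyCompactSpace P]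
    (f g : P → ℝ → ℝ) (hf : Continuous (uncurry f)) (hg : Continuous (uncurry g))
    (hfp : ∀ p x, 0 < f p x) (hgp : ∀ p x, 0 < g p x) (a b c d : ℝ) (hab : a < b) (hcd : c < d)
    (hm : ∀ p, ∫ s in a..b, f p s = ∫ s in c..d, g p s) :
    ∃ T : P → ℝ → ℝ, Continuous (uncurry T) ∧ (∀ p x, T p x ∈ Icc c d) ∧ (∀ p, T p a = c) ∧
      (∀ p, T p b = d) ∧
      ∀ p, ∀ x ∈ Icc a b, HasDerivWithinAt (T p) (f p x / g p (T p x)) (Icc a b) x := by
  classical
  have hfc : ∀ p, Continuous (f p) := fun p => hf.comp (by fun_prop : Continuous fun x : ℝ => (p, x))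
  have hgc : ∀ p, Continuous (g p) := fun p => hg.comp (by fun_prop : Continuous fun x : ℝ => (p, x))
  set Φ : P → ℝ → ℝ := fun p x => ∫ s in a..(max a (min b x)), f p s with hΦ
  set Γ : P → ℝ → ℝ := fun p y => ∫ s in c..y, g p s with hΓ
  have hΦc : Continuous (uncurry Φ) := by
    have h1 : Continuous (uncurry fun (q : P × ℝ) (s : ℝ) => f q.1 s) :=
      hf.comp (by fun_prop : Continuous fun r : (P × ℝ) × ℝ => (r.1.1, r.2))
    exact intervalIntegral.continuous_parametric_intervalIntegral_of_continuous (a₀ := a)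
      (s := fun q : P × ℝ => max a (min b q.2)) h1 (by fun_prop)
  have hΓc : ∀ y, Continuous fun p => Γ p y := by
    intro y
    exact intervalIntegral.continuous_parametric_intervalIntegral_of_continuous (a₀ := c)
      (s := fun _ : P => y) hg continuous_const
  have hΓd : ∀ p y, HasStrictDerivAt (Γ p) (g p y) y := fun p y =>
    (hgc p).integral_hasStrictDerivAt c y
  have hΓm : ∀ p, StrictMono (Γ p) := fun p =>
    strictMono_of_deriv_pos fun y => by rw [(hΓd p y).hasDerivAt.deriv]; exact hgp p y
  have hΓcont : ∀ p, Continuous (Γ p) := fun p =>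
    continuous_iff_continuousAt.2 fun y => (hΓd p y).hasDerivAt.continuousAt
  have hΓ0 : ∀ p, Γ p c = 0 := fun p => by simp [hΓ]
  have hΓ1 : ∀ p, Γ p d = ∫ s in a..b, f p s := fun p => by rw [hm p]
  have hΦr : ∀ p x, Φ p x ∈ Icc (Γ p c) (Γ p d) := by
    intro p x
    have hx : max a (min b x) ∈ Icc a b := ⟨le_max_left _ _, max_le hab.le (min_le_left _ _)⟩
    rw [hΓ0, hΓ1]
    constructor
    · exact intervalIntegral.integral_nonneg hx.1 fun s _ => (hfp p s).le
    · have h1 : (∫ s in a..(max a (min b x)), f p s) + ∫ s in (max a (min b x))..b, f p s =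
          ∫ s in a..b, f p s :=
        intervalIntegral.integral_add_adjacent_intervals ((hfc p).intervalIntegrable _ _)
          ((hfc p).intervalIntegrable _ _)
      have h2 : 0 ≤ ∫ s in (max a (min b x))..b, f p s :=
        intervalIntegral.integral_nonneg hx.2 fun s _ => (hfp p s).le
      simp only [hΦ]
      linarith
  have hex : ∀ p x, ∃ y ∈ Icc c d, Γ p y = Φ p x := by
    intro p x
    exact intermediate_value_Icc hcd.le (hΓcont p).continuousOn (hΦr p x)
  choose T hT1 hT2 using hex
  have hTc : Continuous (uncurry T) := by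
    rw [continuous_iff_continuousAt]
    rintro ⟨p, x⟩
    refine tendsto_order.2 ⟨fun y hy => ?_, fun y hy => ?_⟩
    · -- y < T p x
      have h1 : Γ p y < Φ p x := by rw [← hT2 p x]; exact hΓm p hy
      have h2 : ∀ᶠ q : P × ℝ in 𝓝 (p, x), Γ q.1 y < Φ q.1 q.2 :=
        (((hΓc y).comp continuous_fst).tendsto (p, x)).eventually_lt (hΦc.tendsto (p, x)) h1
      filter_upwards [h2] with q hq
      rw [← hT2 q.1 q.2] at hq
      exact (hΓm q.1).lt_iff_lt.1 hq
    · have h1 : Φ p x < Γ p y := by rw [← hT2 p x]; exact hΓm p hy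
      have h2 : ∀ᶠ q : P × ℝ in 𝓝 (p, x), Φ q.1 q.2 < Γ q.1 y :=
        (hΦc.tendsto (p, x)).eventually_lt (((hΓc y).comp continuous_fst).tendsto (p, x)) h1
      filter_upwards [h2] with q hq
      rw [← hT2 q.1 q.2] at hq
      exact (hΓm q.1).lt_iff_lt.1 hq
  refine ⟨T, hTc, hT1, fun p => ?_, fun p => ?_, fun p x hx => ?_⟩
  · apply (hΓm p).injective
    rw [hT2, hΓ0]
    simp [hΦ, hab.le]
  · apply (hΓm p).injective
    rw [hT2, hΓ1]
    simp [hΦ, hab.le]
  · -- derivative
    have hg0 : g p (T p x) ≠ 0 := (hgp p _).ne'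
    have hTp : ContinuousWithinAt (T p) (Icc a b) x :=
      (hTc.comp (by fun_prop : Continuous fun x : ℝ => (p, x))).continuousWithinAt
    have hΦd : HasDerivWithinAt (fun y => Γ p (T p y)) (f p x) (Icc a b) x := by
      have h1 : HasDerivAt (fun y => ∫ s in a..y, f p s) (f p x) x :=
        ((hfc p).integral_hasStrictDerivAt a x).hasDerivAt
      refine h1.hasDerivWithinAt.congr_of_eventuallyEq ?_ ?_
      · filter_upwards [self_mem_nhdsWithin] with y hy
        rw [hT2]
        simp only [hΦ]
        rw [min_eq_right hy.2, max_eq_right hy.1]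
      · rw [hT2]
        simp only [hΦ]
        rw [min_eq_right hx.2, max_eq_right hx.1]
    -- inverse
    have hT0 : Tendsto (T p) (𝓝[Icc a b] x) (𝓝[univ] (T p x)) := by
      rw [nhdsWithin_univ]; exact hTp
    have hd := (hΓd p (T p x)).hasDerivAt.hasFDerivAt.hasFDerivWithinAt (s := univ)
    have hres := HasFDerivWithinAt.of_comp_of_leftInverse (f := Γ p) (g := T p)
      (h := fun y => Γ p (T p y)) (f'symm := .toSpanSingleton ℝ (g p (T p x))⁻¹) hT0 hd
      hΦd.hasFDerivWithinAt (Eventually.of_forall fun y => rfl) (fun z => by simp [hg0]) hx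
    have h3 := hres.hasDerivWithinAt
    refine h3.congr_deriv ?_
    simp [div_eq_mul_inv]

end Pool.Agent.CY.S1
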