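import Pool.Agent.CY.S1.Fub
import Pool.Agent.CY.S1.Mono

/-!
Project CY, part S1, module Knothe: the Knothe transport map between continuous positive densities on
boxes, with parameters.

PROOF PLAN (induction on `N`, the parameter space `P` being universally quantified inside).
`N = 0`: `Fin 0 → ℝ` has one point `default`, volume is the Dirac mass.
Step `N → N+1`: marginals `f0 p s = ∫ z in Icc a' b', f p (cons s z)`, `mono_map` for the first coordinate,
induction hypothesis with parameter space `P × ℝ` for the conditional densities.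
-/

set_option autoImplicit false

open MeasureTheory Set Function

namespace Pool.Agent.CY.S1

theorem kn_fub0 (N : ℕ) (a b : Fin (N + 1) → ℝ) (hab : ∀ j, a j ≤ b j)
    (F : (Fin (N + 1) → ℝ) → ℝ) (hF : Continuous F) :
    ∫ x in Icc a b, F x =
      ∫ s in (a 0)..(b 0), ∫ z in Icc (Fin.tail a) (Fin.tail b), F (Fin.cons s z) := by
  have h := (box_fubini N 0 a b hab F hF.continuousOn).2
  simp only [Fin.insertNth_zero', Fin.removeNth_zero] at h
  exact h

theorem kn_cont_cons (N : ℕ) : Continuous (fun q : ℝ × (Fin N → ℝ) => (Fin.cons q.1 q.2 : Fin (N + 1) → ℝ)) := by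
  refine continuous_pi (fun i => ?_)
  refine Fin.cases ?_ (fun j => ?_) i
  · simpa using continuous_fst
  · simp only [Fin.cons_succ]
    fun_prop

theorem kn_pos (N : ℕ) (F : (Fin N → ℝ) → ℝ) (hF : Continuous F) (hp : ∀ x, 0 < F x)
    (a b : Fin N → ℝ) (hab : ∀ i, a i < b i) : 0 < ∫ z in Icc a b, F z := by
  rw [setIntegral_pos_iff_support_of_nonneg_ae]
  · have hs : support F = univ := by
      ext x; simp [(hp x).ne']
    rw [hs, univ_inter, Real.volume_Icc_pi]
    rw [pos_iff_ne_zero, Finset.prod_ne_zero_iff]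
    intro i _
    simpa using hab i
  · exact Filter.Eventually.of_forall (fun x => (hp x).le)
  · exact hF.continuousOn.integrableOn_compact isCompact_Icc

theorem kn_marg (N : ℕ) {P : Type} [TopologicalSpace P] [FirstCountableTopology P]
    [LocallyCompactSpace P] (f : P → (Fin (N + 1) → ℝ) → ℝ) (hf : Continuous (uncurry f))
    (a b : Fin N → ℝ) :
    Continuous (uncurry fun (p : P) (s : ℝ) => ∫ z in Icc a b, f p (Fin.cons s z)) := by
  have hc : Continuous (uncurry fun (q : P × ℝ) (z : Fin N → ℝ) => f q.1 (Fin.cons q.2 z)) := by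
    have h1 : Continuous (fun w : (P × ℝ) × (Fin N → ℝ) =>
        (w.1.1, (Fin.cons w.1.2 w.2 : Fin (N + 1) → ℝ))) := by
      refine Continuous.prodMk (by fun_prop) ?_
      exact (kn_cont_cons N).comp (f := fun w : (P × ℝ) × (Fin N → ℝ) => (w.1.2, w.2)) (by fun_prop)
    exact hf.comp h1
  exact continuous_parametric_integral_of_continuous hc isCompact_Icc

theorem kn_zero (F : (Fin 0 → ℝ) → ℝ) (a b x : Fin 0 → ℝ) : ∫ z in Icc a b, F z = F x := by
  have h : Icc a b = univ := by
    ext y
    simp only [mem_Icc, mem_univ, iff_true]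
    exact ⟨(Subsingleton.elim a y).le, (Subsingleton.elim y b).le⟩
  rw [h, setIntegral_univ, integral_unique]
  rw [Subsingleton.elim x default]
  have : (volume : Measure (Fin 0 → ℝ)).real univ = 1 := by
    rw [Measure.real, ← h, Real.volume_Icc_pi]
    simp
  rw [this, one_smul]
  exact congrArg F (Subsingleton.elim _ _)

theorem knothe (N : ℕ) : ∀ (P : Type) [TopologicalSpace P] [FirstCountableTopology P]
    [LocallyCompactSpace P] (f g : P → (Fin N → ℝ) → ℝ), Continuous (uncurry f) → Continuous (uncurry g) →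
    (∀ p x, 0 < f p x) → (∀ p x, 0 < g p x) → ∀ (a b c d : Fin N → ℝ), (∀ i, a i < b i) →
    (∀ i, c i < d i) → (∀ p, ∫ x in Icc a b, f p x = ∫ y in Icc c d, g p y) →
    ∃ T D : P → (Fin N → ℝ) → (Fin N → ℝ), Continuous (uncurry T) ∧ Continuous (uncurry D) ∧
      (∀ p x i, 0 < D p x i) ∧ (∀ p x i, T p x i ∈ Icc (c i) (d i)) ∧
      (∀ p x i, x i = a i → T p x i = c i) ∧ (∀ p x i, x i = b i → T p x i = d i) ∧
      (∀ p, ∀ x ∈ Icc a b, f p x = g p (T p x) * ∏ i, D p x i) ∧
      (∀ p, ∀ x ∈ Icc a b, ∀ i,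
        HasDerivWithinAt (fun s => T p (update x i s) i) (D p x i) (Icc (a i) (b i)) (x i)) ∧
      (∀ p, ∀ h : (Fin N → ℝ) → ℝ, Continuous h →
        ∫ x in Icc a b, h (T p x) * f p x = ∫ y in Icc c d, h y * g p y) := by
  induction N with
  | zero =>
    intro P _ _ _ f g hf hg hfp hgp a b c d hab hcd hm
    refine ⟨fun _ x => x, fun _ x => x, continuous_snd, continuous_snd, fun _ _ i => i.elim0,
      fun _ _ i => i.elim0, fun _ _ i => i.elim0, fun _ _ i => i.elim0, ?_,
      fun _ _ _ i => i.elim0, ?_⟩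
    · intro p x _
      have h := hm p
      rw [kn_zero _ a b x, kn_zero _ c d x] at h
      simp [h]
    · intro p h _
      have h1 := hm p
      rw [kn_zero _ a b default, kn_zero _ c d default] at h1
      rw [kn_zero _ a b default, kn_zero _ c d default, h1]
  | succ N ih =>
    intro P _ _ _ f g hf hg hfp hgp a b c d hab hcd hm
    have hab' : ∀ i, Fin.tail a i < Fin.tail b i := fun i => hab i.succ
    have hcd' : ∀ i, Fin.tail c i < Fin.tail d i := fun i => hcd i.succ
    have hfc : ∀ p, Continuous (f p) := fun p => hf.comp (Continuous.prodMk_right p)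
    have hgc : ∀ p, Continuous (g p) := fun p => hg.comp (Continuous.prodMk_right p)
    have hcons : ∀ s : ℝ, Continuous (fun z : Fin N → ℝ => (Fin.cons s z : Fin (N + 1) → ℝ)) :=
      fun s => (kn_cont_cons N).comp (Continuous.prodMk_right s)
    obtain ⟨f0, hf0⟩ : ∃ f0 : P → ℝ → ℝ,
        f0 = fun p s => ∫ z in Icc (Fin.tail a) (Fin.tail b), f p (Fin.cons s z) := ⟨_, rfl⟩
    obtain ⟨g0, hg0⟩ : ∃ g0 : P → ℝ → ℝ,
        g0 = fun p s => ∫ z in Icc (Fin.tail c) (Fin.tail d), g p (Fin.cons s z) := ⟨_, rfl⟩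
    have hf0c : Continuous (uncurry f0) := by rw [hf0]; exact kn_marg N f hf _ _
    have hg0c : Continuous (uncurry g0) := by rw [hg0]; exact kn_marg N g hg _ _
    have hf0p : ∀ p s, 0 < f0 p s := by
      intro p s
      rw [hf0]
      exact kn_pos N _ ((hfc p).comp (hcons s)) (fun z => hfp p _) _ _ hab'
    have hg0p : ∀ p s, 0 < g0 p s := by
      intro p s
      rw [hg0]
      exact kn_pos N _ ((hgc p).comp (hcons s)) (fun z => hgp p _) _ _ hcd'
    have hm0 : ∀ p, ∫ s in (a 0)..(b 0), f0 p s = ∫ s in (c 0)..(d 0), g0 p s := by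
      intro p
      have h := hm p
      rw [kn_fub0 N a b (fun j => (hab j).le) _ (hfc p),
        kn_fub0 N c d (fun j => (hcd j).le) _ (hgc p)] at h
      rw [hf0, hg0]
      exact h
    obtain ⟨T0, hT0c, hT0m, hT0a, hT0b, hT0d⟩ := mono_map f0 g0 hf0c hg0c hf0p hg0p
      (a 0) (b 0) (c 0) (d 0) (hab 0) (hcd 0) hm0
    obtain ⟨f', hf'⟩ : ∃ f' : P × ℝ → (Fin N → ℝ) → ℝ,
        f' = fun q z => f q.1 (Fin.cons q.2 z) / f0 q.1 q.2 := ⟨_, rfl⟩
    obtain ⟨g', hg'⟩ : ∃ g' : P × ℝ → (Fin N → ℝ) → ℝ,
        g' = fun q z => g q.1 (Fin.cons (T0 q.1 q.2) z) / g0 q.1 (T0 q.1 q.2) := ⟨_, rfl⟩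
    have hT0c' : Continuous (fun q : P × ℝ => T0 q.1 q.2) := hT0c
    have hf'c : Continuous (uncurry f') := by
      rw [hf']
      refine Continuous.div (f := fun w : (P × ℝ) × (Fin N → ℝ) => f w.1.1 (Fin.cons w.1.2 w.2))
        (g := fun w : (P × ℝ) × (Fin N → ℝ) => f0 w.1.1 w.1.2) ?_ ?_ (fun w => (hf0p _ _).ne')
      · have h1 : Continuous (fun w : (P × ℝ) × (Fin N → ℝ) =>
            (w.1.1, (Fin.cons w.1.2 w.2 : Fin (N + 1) → ℝ))) := by
          refine Continuous.prodMk (by fun_prop) ?_
          exact (kn_cont_cons N).comp (f := fun w : (P × ℝ) × (Fin N → ℝ) => (w.1.2, w.2)) (by fun_prop)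
        exact hf.comp h1
      · exact hf0c.comp continuous_fst
    have hg'c : Continuous (uncurry g') := by
      rw [hg']
      have hT1 : Continuous (fun w : (P × ℝ) × (Fin N → ℝ) => T0 w.1.1 w.1.2) :=
        hT0c'.comp continuous_fst
      refine Continuous.div (f := fun w : (P × ℝ) × (Fin N → ℝ) =>
        g w.1.1 (Fin.cons (T0 w.1.1 w.1.2) w.2))
        (g := fun w : (P × ℝ) × (Fin N → ℝ) => g0 w.1.1 (T0 w.1.1 w.1.2)) ?_ ?_
        (fun w => (hg0p _ _).ne')
      · have h1 : Continuous (fun w : (P × ℝ) × (Fin N → ℝ) =>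
            (w.1.1, (Fin.cons (T0 w.1.1 w.1.2) w.2 : Fin (N + 1) → ℝ))) := by
          refine Continuous.prodMk (by fun_prop) ?_
          exact (kn_cont_cons N).comp
            (f := fun w : (P × ℝ) × (Fin N → ℝ) => (T0 w.1.1 w.1.2, w.2))
            (Continuous.prodMk hT1 continuous_snd)
        exact hg.comp h1
      · have h2 : Continuous (fun w : (P × ℝ) × (Fin N → ℝ) => (w.1.1, T0 w.1.1 w.1.2)) :=
          Continuous.prodMk (by fun_prop) hT1
        exact hg0c.comp h2
    have hf'p : ∀ q z, 0 < f' q z := by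
      intro q z; rw [hf']; exact div_pos (hfp _ _) (hf0p _ _)
    have hg'p : ∀ q z, 0 < g' q z := by
      intro q z; rw [hg']; exact div_pos (hgp _ _) (hg0p _ _)
    have hm' : ∀ q, ∫ x in Icc (Fin.tail a) (Fin.tail b), f' q x
        = ∫ y in Icc (Fin.tail c) (Fin.tail d), g' q y := by
      intro q
      have h1 : ∫ x in Icc (Fin.tail a) (Fin.tail b), f' q x = 1 := by
        rw [hf']
        simp only
        rw [integral_div]
        have : ∫ z in Icc (Fin.tail a) (Fin.tail b), f q.1 (Fin.cons q.2 z) = f0 q.1 q.2 := by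
          rw [hf0]
        rw [this]
        exact div_self (hf0p _ _).ne'
      have h2 : ∫ x in Icc (Fin.tail c) (Fin.tail d), g' q x = 1 := by
        rw [hg']
        simp only
        rw [integral_div]
        have : ∫ z in Icc (Fin.tail c) (Fin.tail d), g q.1 (Fin.cons (T0 q.1 q.2) z)
            = g0 q.1 (T0 q.1 q.2) := by
          rw [hg0]
        rw [this]
        exact div_self (hg0p _ _).ne'
      rw [h1, h2]
    obtain ⟨T', D', hT'c, hD'c, hD'p, hT'm, hT'a, hT'b, hT'prod, hT'der, hT'int⟩ :=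
      ih (P × ℝ) f' g' hf'c hg'c hf'p hg'p _ _ _ _ hab' hcd' hm'
    have htail : ∀ x : Fin (N + 1) → ℝ, x ∈ Icc a b → Fin.tail x ∈ Icc (Fin.tail a) (Fin.tail b) := by
      intro x hx
      exact ⟨fun i => hx.1 i.succ, fun i => hx.2 i.succ⟩
    have hctail : Continuous (fun x : Fin (N + 1) → ℝ => Fin.tail x) := by
      refine continuous_pi (fun i => ?_)
      simp only [Fin.tail]
      fun_prop
    have hcw : Continuous (fun w : P × (Fin (N + 1) → ℝ) =>
        (((w.1, w.2 0) : P × ℝ), Fin.tail w.2)) := by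
      refine Continuous.prodMk (by fun_prop) ?_
      exact hctail.comp continuous_snd
    have hT0w : Continuous (fun w : P × (Fin (N + 1) → ℝ) => T0 w.1 (w.2 0)) :=
      hT0c'.comp (f := fun w : P × (Fin (N + 1) → ℝ) => ((w.1, w.2 0) : P × ℝ)) (by fun_prop)
    refine ⟨fun p x => Fin.cons (T0 p (x 0)) (T' (p, x 0) (Fin.tail x)),
      fun p x => Fin.cons (f0 p (x 0) / g0 p (T0 p (x 0))) (D' (p, x 0) (Fin.tail x)),
      ?_, ?_, ?_, ?_, ?_, ?_, ?_, ?_, ?_⟩
    · exact (kn_cont_cons N).comp (f := fun w : P × (Fin (N + 1) → ℝ) =>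
        (T0 w.1 (w.2 0), T' (w.1, w.2 0) (Fin.tail w.2))) (Continuous.prodMk hT0w (hT'c.comp hcw))
    · refine (kn_cont_cons N).comp (f := fun w : P × (Fin (N + 1) → ℝ) =>
        (f0 w.1 (w.2 0) / g0 w.1 (T0 w.1 (w.2 0)), D' (w.1, w.2 0) (Fin.tail w.2)))
        (Continuous.prodMk ?_ (hD'c.comp hcw))
      refine Continuous.div ?_ ?_ (fun w => (hg0p _ _).ne')
      · exact hf0c.comp (f := fun w : P × (Fin (N + 1) → ℝ) => ((w.1, w.2 0) : P × ℝ)) (by fun_prop)
      · exact hg0c.comp (f := fun w : P × (Fin (N + 1) → ℝ) => ((w.1, T0 w.1 (w.2 0)) : P × ℝ))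
          (Continuous.prodMk (by fun_prop) hT0w)
    · intro p x i
      refine Fin.cases ?_ (fun j => ?_) i
      · simp only [Fin.cons_zero]
        exact div_pos (hf0p _ _) (hg0p _ _)
      · simp only [Fin.cons_succ]
        exact hD'p _ _ _
    · intro p x i
      refine Fin.cases ?_ (fun j => ?_) i
      · simp only [Fin.cons_zero]
        exact hT0m _ _
      · simp only [Fin.cons_succ]
        exact hT'm _ _ _
    · intro p x i
      refine Fin.cases ?_ (fun j => ?_) i
      · intro hx
        simp only [Fin.cons_zero]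
        rw [hx]; exact hT0a p
      · intro hx
        simp only [Fin.cons_succ]
        exact hT'a _ _ _ hx
    · intro p x i
      refine Fin.cases ?_ (fun j => ?_) i
      · intro hx
        simp only [Fin.cons_zero]
        rw [hx]; exact hT0b p
      · intro hx
        simp only [Fin.cons_succ]
        exact hT'b _ _ _ hx
    · intro p x hx
      rw [Fin.prod_univ_succ]
      simp only [Fin.cons_zero, Fin.cons_succ]
      have h := hT'prod (p, x 0) (Fin.tail x) (htail x hx)
      have e1 : f' (p, x 0) (Fin.tail x) = f p x / f0 p (x 0) := by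
        rw [hf']; simp only; rw [Fin.cons_self_tail]
      have e2 : g' (p, x 0) (T' (p, x 0) (Fin.tail x))
          = g p (Fin.cons (T0 p (x 0)) (T' (p, x 0) (Fin.tail x))) / g0 p (T0 p (x 0)) := by
        rw [hg']
      rw [e1, e2] at h
      have n1 := (hf0p p (x 0)).ne'
      have n2 := (hg0p p (T0 p (x 0))).ne'
      have h' : f p x = f0 p (x 0) * (g p (Fin.cons (T0 p (x 0)) (T' (p, x 0) (Fin.tail x)))
          / g0 p (T0 p (x 0)) * ∏ i, D' (p, x 0) (Fin.tail x) i) := by
        rw [← h]; field_simp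
      rw [h']
      field_simp
    · intro p x hx i
      refine Fin.cases ?_ (fun j => ?_) i
      · simp only [Fin.cons_zero, update_self]
        exact hT0d p (x 0) ⟨hx.1 0, hx.2 0⟩
      · have h := hT'der (p, x 0) (Fin.tail x) (htail x hx) j
        simp only [Fin.cons_succ, Fin.tail_update_succ]
        have e : ∀ s : ℝ, update x j.succ s 0 = x 0 := fun s => by
          rw [update_of_ne]; exact (Fin.succ_ne_zero j).symm
        simp only [e]
        exact h
    · intro p h hh
      show ∫ x in Icc a b, h (Fin.cons (T0 p (x 0)) (T' (p, x 0) (Fin.tail x))) * f p x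
        = ∫ y in Icc c d, h y * g p y
      have hTp : Continuous (fun x : Fin (N + 1) → ℝ =>
          (Fin.cons (T0 p (x 0)) (T' (p, x 0) (Fin.tail x)) : Fin (N + 1) → ℝ)) := by
        have := (kn_cont_cons N).comp (f := fun w : P × (Fin (N + 1) → ℝ) =>
          (T0 w.1 (w.2 0), T' (w.1, w.2 0) (Fin.tail w.2))) (Continuous.prodMk hT0w (hT'c.comp hcw))
        exact this.comp (Continuous.prodMk_right p)
      rw [kn_fub0 N a b (fun j => (hab j).le)
          (fun x => h (Fin.cons (T0 p (x 0)) (T' (p, x 0) (Fin.tail x))) * f p x)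
          ((hh.comp hTp).mul (hfc p)),
        kn_fub0 N c d (fun j => (hcd j).le) (fun y => h y * g p y) (hh.mul (hgc p))]
      simp only [Fin.cons_zero, Fin.tail_cons]
      -- inner integral
      obtain ⟨H, hH⟩ : ∃ H : ℝ → ℝ, H = fun t =>
        ∫ z in Icc (Fin.tail c) (Fin.tail d), h (Fin.cons t z) * g p (Fin.cons t z) := ⟨_, rfl⟩
      have hHc : Continuous H := by
        rw [hH]
        have := kn_marg N (P := P) (fun q x => h x * g q x)
          ((hh.comp continuous_snd).mul hg) (Fin.tail c) (Fin.tail d)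
        exact this.comp (Continuous.prodMk_right p)
      have inner : ∀ s : ℝ, ∫ z in Icc (Fin.tail a) (Fin.tail b),
          h (Fin.cons (T0 p s) (T' (p, s) z)) * f p (Fin.cons s z)
          = H (T0 p s) * (f0 p s / g0 p (T0 p s)) := by
        intro s
        have h1 := hT'int (p, s) (fun z => h (Fin.cons (T0 p s) z)) (hh.comp (hcons _))
        have n1 := (hf0p p s).ne'
        have e1 : ∀ z, h (Fin.cons (T0 p s) (T' (p, s) z)) * f p (Fin.cons s z)
            = f0 p s * (h (Fin.cons (T0 p s) (T' (p, s) z)) * f' (p, s) z) := by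
          intro z
          rw [hf']
          simp only
          field_simp
        simp only [e1]
        rw [integral_const_mul, h1]
        have e2 : ∀ z, h (Fin.cons (T0 p s) z) * g' (p, s) z
            = (h (Fin.cons (T0 p s) z) * g p (Fin.cons (T0 p s) z)) / g0 p (T0 p s) := by
          intro z
          rw [hg']
          simp only
          rw [mul_div_assoc]
        simp only [e2]
        rw [integral_div, hH]
        ring
      simp only [inner]
      have hsub := intervalIntegral.integral_comp_mul_deriv'' (a := a 0) (b := b 0) (f := T0 p)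
        (f' := fun s => f0 p s / g0 p (T0 p s)) (g := H)
        (hT0c.comp (Continuous.prodMk_right p)).continuousOn ?_ ?_ hHc.continuousOn
      · rw [hT0a, hT0b] at hsub
        rw [hH] at hsub ⊢
        exact hsub
      · intro x hx
        rw [min_eq_left (hab 0).le, max_eq_right (hab 0).le] at hx
        have h1 := hT0d p x ⟨hx.1.le, hx.2.le⟩
        exact (h1.hasDerivAt (Icc_mem_nhds hx.1 hx.2)).hasDerivWithinAt
      · have hT0p : Continuous (T0 p) := hT0c.comp (Continuous.prodMk_right p)
        refine (Continuous.div (hf0c.comp (Continuous.prodMk_right p))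
          (hg0c.comp (f := fun s : ℝ => ((p, T0 p s) : P × ℝ)) (Continuous.prodMk continuous_const hT0p))
          (fun s => (hg0p _ _).ne')).continuousOn

end Pool.Agent.CY.S1
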