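import Pool.Agent.CY.S1.Base
import Pool.Agent.CY.S1.Knothe
import Pool.Agent.CY.S1.Ibp

/-!
Project CY, part S1, module BoxIneq: the transport inequality on a box.

PROOF PLAN.  `C := ∑ i, (|c i| + |d i| + τ) * (volume (Icc (i.removeNth a) (i.removeNth b))).toReal`.
Use `knothe (n+1)` with `P = Unit` (densities `fun _ => f`, `fun _ => g`); `T x := T () x`, `D x := D () x`.
Let `S i x := T x i + (if i = 0 then τ else 0)`.  `ibp` with `F' := fun x => F' x i`, `T := S i`, `T' := fun x => D x i`: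
  `∫ F * D i = ∫_z (F(b) S_i(b) - F(a) S_i(a)) - ∫ F' i * S i`.
On the faces `T x i = d i` (`x i = b i`), `T x i = c i` (`x i = a i`), so
  `i = 0`: boundary term `= (d 0 + τ) ∫_z F(insertNth (b 0) z) - τ ∫_z F(insertNth (a 0) z)` (as `c 0 = 0`)
  `i ≠ 0`: boundary term `= ∫_z (F(b) d i - F(a) c i)`; and `0 < F ≤ ε` there (so `0 ≤ ε`): everything except the term
  `- τ ∫_z F(insertNth (a 0) z)` is at most `ε (|c i| + |d i| + τ) vol_i`.
Lower bound: AM-GM (`Real.inner_le_nnorm_mul_nnorm` no: `Real.geom_mean_le_arith_mean_weighted` with equal weights, or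
`Real.inner_le..`): `∑ i, D x i ≥ (n+1) (∏ i, D x i)^(1/(n+1))`, and `f x = g (T x) ∏ D x i` gives
  `F x * (∏ D x i)^(1/(n+1)) = f x * g (T x)^(-1/(n+1))`, whose integral is `∫ y in Icc c d, g y ^ (-1/(n+1)) * g y`
by the push-forward property (with `h y = g y ^ (-1/(n+1))`, continuous as `g > 0`) `= ∫ g^(n/(n+1))`.
Upper bound: `- ∫ ∑ i, F' x i * S i x ≤ ∫ sqrt (∑ F' i ^2 / f) * sqrt (f * ∑ (S i)^2)` (finite Cauchy-Schwarz) `≤`
product of the square roots of the integrals (`integral_mul_le_Lp_mul_Lq_of_nonneg` with `p = q = 2`, or the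
discriminant argument); finally `∑ i, (S i x)^2 = rho n τ (T x)` and the push-forward property with `h = rho n τ`.
All functions are continuous on the compact box, hence integrable there.
-/

set_option autoImplicit false

open MeasureTheory Set Function

namespace Pool.Agent.CY.S1


private theorem memLp_two_box {m : ℕ} {a b : Fin m → ℝ} {h : (Fin m → ℝ) → ℝ}
    (hh : ContinuousOn h (Icc a b)) : MemLp h 2 (volume.restrict (Icc a b)) := by
  have h1 : IntegrableOn h (Icc a b) := hh.integrableOn_compact isCompact_Icc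
  have h2 : IntegrableOn (fun x => h x ^ 2) (Icc a b) := (hh.pow 2).integrableOn_compact isCompact_Icc
  exact (memLp_two_iff_integrable_sq h1.aestronglyMeasurable).2 h2

/-- Cauchy-Schwarz. -/
private theorem cs_box {m : ℕ} {a b : Fin m → ℝ} {A B : (Fin m → ℝ) → ℝ}
    (hA : ContinuousOn A (Icc a b)) (hB : ContinuousOn B (Icc a b)) (hA0 : ∀ x ∈ Icc a b, 0 ≤ A x)
    (hB0 : ∀ x ∈ Icc a b, 0 ≤ B x) :
    ∫ x in Icc a b, Real.sqrt (A x) * Real.sqrt (B x) ≤
      Real.sqrt (∫ x in Icc a b, A x) * Real.sqrt (∫ x in Icc a b, B x) := by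
  have hA' : ContinuousOn (fun x => Real.sqrt (A x)) (Icc a b) := Real.continuous_sqrt.comp_continuousOn hA
  have hB' : ContinuousOn (fun x => Real.sqrt (B x)) (Icc a b) := Real.continuous_sqrt.comp_continuousOn hB
  have h2 : ENNReal.ofReal 2 = 2 := by norm_num
  have h1 := integral_mul_le_Lp_mul_Lq_of_nonneg (μ := volume.restrict (Icc a b))
    (Real.HolderConjugate.two_two) (f := fun x => Real.sqrt (A x)) (g := fun x => Real.sqrt (B x))
    (Filter.Eventually.of_forall fun x => Real.sqrt_nonneg _)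
    (Filter.Eventually.of_forall fun x => Real.sqrt_nonneg _)
    (by rw [h2]; exact memLp_two_box hA') (by rw [h2]; exact memLp_two_box hB')
  have e : ∀ (G : (Fin m → ℝ) → ℝ), (∀ x ∈ Icc a b, 0 ≤ G x) →
      ∫ x in Icc a b, Real.sqrt (G x) ^ (2 : ℝ) = ∫ x in Icc a b, G x := by
    intro G hG
    refine setIntegral_congr_fun measurableSet_Icc fun x hx => ?_
    rw [Real.rpow_two, Real.sq_sqrt (hG x hx)]
  rw [e A hA0, e B hB0] at h1
  rw [Real.sqrt_eq_rpow, Real.sqrt_eq_rpow]
  exact h1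

private theorem amgm (n : ℕ) (D : Fin (n + 1) → ℝ) (hD : ∀ i, 0 < D i) :
    ((n : ℝ) + 1) * (∏ i, D i) ^ ((1 : ℝ) / ((n : ℝ) + 1)) ≤ ∑ i, D i := by
  have hn : (0 : ℝ) < (n : ℝ) + 1 := by positivity
  have h1 := Real.geom_mean_le_arith_mean_weighted Finset.univ
    (fun _ : Fin (n + 1) => (1 : ℝ) / ((n : ℝ) + 1)) D (fun _ _ => by positivity)
    (by
      rw [Finset.sum_const, Finset.card_univ, Fintype.card_fin, nsmul_eq_mul]
      push_cast
      field_simp) (fun i _ => (hD i).le)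
  rw [Real.finsetProd_rpow _ _ (fun i _ => (hD i).le)] at h1
  rw [← Finset.mul_sum] at h1
  have h2 := mul_le_mul_of_nonneg_left h1 hn.le
  calc ((n : ℝ) + 1) * (∏ i, D i) ^ ((1 : ℝ) / ((n : ℝ) + 1)) ≤
        ((n : ℝ) + 1) * (1 / ((n : ℝ) + 1) * ∑ i, D i) := h2
    _ = ∑ i, D i := by field_simp

private theorem pow_id (n : ℕ) (f g P : ℝ) (hf : 0 < f) (hg : 0 < g) (hP : 0 < P) (h : f = g * P) :
    f ^ ((n : ℝ) / ((n : ℝ) + 1)) * P ^ ((1 : ℝ) / ((n : ℝ) + 1)) =
      g ^ (-(1 : ℝ) / ((n : ℝ) + 1)) * f := by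
  have hn : (0 : ℝ) < (n : ℝ) + 1 := by positivity
  have hP' : P = f / g := by rw [h]; field_simp
  have e1 : f ^ ((n : ℝ) / ((n : ℝ) + 1)) * f ^ ((1 : ℝ) / ((n : ℝ) + 1)) = f := by
    rw [← Real.rpow_add hf]
    have : (n : ℝ) / ((n : ℝ) + 1) + 1 / ((n : ℝ) + 1) = 1 := by field_simp
    rw [this, Real.rpow_one]
  rw [hP', Real.div_rpow hf.le hg.le, ← mul_div_assoc, e1, neg_div, Real.rpow_neg hg.le]
  field_simp

private theorem pow_id2 (n : ℕ) (g : ℝ) (hg : 0 < g) :
    g ^ (-(1 : ℝ) / ((n : ℝ) + 1)) * g = g ^ ((n : ℝ) / ((n : ℝ) + 1)) := by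
  have hn : (0 : ℝ) < (n : ℝ) + 1 := by positivity
  have h1 : g ^ (-(1 : ℝ) / ((n : ℝ) + 1)) * g = g ^ (-(1 : ℝ) / ((n : ℝ) + 1)) * g ^ (1 : ℝ) := by
    rw [Real.rpow_one]
  rw [h1, ← Real.rpow_add hg]
  congr 1
  field_simp
  ring

theorem box_ineq (n : ℕ) (a b c d : Fin (n + 1) → ℝ) (hab : ∀ i, a i < b i) (hcd : ∀ i, c i < d i)
    (hc0 : c 0 = 0) (τ : ℝ) (hτ : 0 ≤ τ) :
    ∃ C : ℝ, ∀ (f g F : (Fin (n + 1) → ℝ) → ℝ) (F' : (Fin (n + 1) → ℝ) → Fin (n + 1) → ℝ) (ε : ℝ),
      Continuous f → Continuous g → (∀ x, 0 < f x) → (∀ x, 0 < g x) →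
      (∫ x in Icc a b, f x = ∫ y in Icc c d, g y) →
      (∀ x, F x = f x ^ ((n : ℝ) / ((n : ℝ) + 1))) → ContinuousOn F' (Icc a b) →
      (∀ x ∈ Icc a b, ∀ i,
        HasDerivWithinAt (fun s => F (update x i s)) (F' x i) (Icc (a i) (b i)) (x i)) →
      (∀ x ∈ Icc a b, ∀ i, x i = b i → F x ≤ ε) →
      (∀ x ∈ Icc a b, ∀ i, i ≠ 0 → x i = a i → F x ≤ ε) →
      ((n : ℝ) + 1) * (∫ y in Icc c d, g y ^ ((n : ℝ) / ((n : ℝ) + 1))) +
        τ * (∫ z in Icc ((0 : Fin (n + 1)).removeNth a) ((0 : Fin (n + 1)).removeNth b),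
          F ((0 : Fin (n + 1)).insertNth (a 0) z)) ≤
      ε * C + Real.sqrt (∫ x in Icc a b, (∑ i, F' x i ^ 2) / f x) *
        Real.sqrt (∫ y in Icc c d, rho n τ y * g y) := by
  classical
  set vi : Fin (n + 1) → ℝ := fun i => (volume (Icc (i.removeNth a) (i.removeNth b))).toReal with hvi
  refine ⟨∑ i, (|c i| + |d i| + τ) * vi i, ?_⟩
  intro f g F F' ε hf hg hf0 hg0 hmass hF hF' hdF hε1 hε2
  have hn : (0 : ℝ) < (n : ℝ) + 1 := by positivity
  have hFeq : F = fun x => f x ^ ((n : ℝ) / ((n : ℝ) + 1)) := funext hF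
  have hFc : Continuous F := by
    rw [hFeq]
    exact hf.rpow_const fun x => Or.inl (hf0 x).ne'
  have hFpos : ∀ x, 0 < F x := fun x => by rw [hF]; exact Real.rpow_pos_of_pos (hf0 x) _
  obtain ⟨T', D', hTc', hDc', hD0', hTm', hTa', hTb', hprod', hder', hpush'⟩ :=
    knothe (n + 1) Unit (fun _ => f) (fun _ => g) (hf.comp continuous_snd) (hg.comp continuous_snd)
      (fun _ => hf0) (fun _ => hg0) a b c d hab hcd (fun _ => hmass)
  set T : (Fin (n + 1) → ℝ) → (Fin (n + 1) → ℝ) := T' () with hT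
  set D : (Fin (n + 1) → ℝ) → (Fin (n + 1) → ℝ) := D' () with hD
  have hTc : Continuous T := by
    have h1 : Continuous fun x : Fin (n + 1) → ℝ => ((), x) := by fun_prop
    exact hTc'.comp h1
  have hDc : Continuous D := by
    have h1 : Continuous fun x : Fin (n + 1) → ℝ => ((), x) := by fun_prop
    exact hDc'.comp h1
  have hD0 : ∀ x i, 0 < D x i := hD0' ()
  have hTa : ∀ x i, x i = a i → T x i = c i := hTa' ()
  have hTb : ∀ x i, x i = b i → T x i = d i := hTb' ()
  have hprod : ∀ x ∈ Icc a b, f x = g (T x) * ∏ i, D x i := hprod' ()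
  have hder : ∀ x ∈ Icc a b, ∀ i,
      HasDerivWithinAt (fun s => T (update x i s) i) (D x i) (Icc (a i) (b i)) (x i) := hder' ()
  have hpush : ∀ h : (Fin (n + 1) → ℝ) → ℝ, Continuous h →
      ∫ x in Icc a b, h (T x) * f x = ∫ y in Icc c d, h y * g y := hpush' ()
  clear hTc' hDc' hD0' hTm' hTa' hTb' hprod' hder' hpush'
  set e : Fin (n + 1) → ℝ := fun i => if i = 0 then τ else 0 with he
  set S : Fin (n + 1) → (Fin (n + 1) → ℝ) → ℝ := fun i x => T x i + e i with hS
  have hTi : ∀ i, Continuous fun x => T x i := fun i => (continuous_apply i).comp hTc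
  have hDi : ∀ i, Continuous fun x => D x i := fun i => (continuous_apply i).comp hDc
  have hSc : ∀ i, Continuous (S i) := fun i => (hTi i).add continuous_const
  have hF'i : ∀ i, ContinuousOn (fun x => F' x i) (Icc a b) := fun i =>
    (continuous_apply i).comp_continuousOn hF'
  -- integration by parts
  have hibp : ∀ i : Fin (n + 1), ∫ x in Icc a b, F x * D x i =
      (∫ z in Icc (i.removeNth a) (i.removeNth b),
        (F (i.insertNth (b i) z) * S i (i.insertNth (b i) z) -
          F (i.insertNth (a i) z) * S i (i.insertNth (a i) z))) - ∫ x in Icc a b, F' x i * S i x := by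
    intro i
    refine ibp n i a b hab F (S i) (fun x => F' x i) (fun x => D x i) hFc.continuousOn
      (hSc i).continuousOn (hF'i i) (hDi i).continuousOn (fun x hx => hdF x hx i) fun x hx => ?_
    exact (hder x hx i).add_const (e i)
  -- faces
  have hap : ∀ (i : Fin (n + 1)) (s : ℝ) (z : Fin n → ℝ), (i.insertNth s z : Fin (n + 1) → ℝ) i = s :=
    fun i s z => Fin.insertNth_apply_same (α := fun _ => ℝ) i s z
  have hci : ∀ (i : Fin (n + 1)) (k : ℝ), Integrable (fun _ : Fin n → ℝ => k)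
      (volume.restrict (Icc (i.removeNth a) (i.removeNth b))) := fun i k =>
    (continuous_const (y := k)).continuousOn.integrableOn_compact isCompact_Icc
  have hmemb : ∀ i : Fin (n + 1), ∀ z ∈ Icc (i.removeNth a) (i.removeNth b),
      (i.insertNth (b i) z : Fin (n + 1) → ℝ) ∈ Icc a b := by
    intro i z hz
    rw [Fin.insertNth_mem_Icc]
    exact ⟨⟨(hab i).le, le_refl _⟩, hz⟩
  have hmema : ∀ i : Fin (n + 1), ∀ z ∈ Icc (i.removeNth a) (i.removeNth b),
      (i.insertNth (a i) z : Fin (n + 1) → ℝ) ∈ Icc a b := by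
    intro i z hz
    rw [Fin.insertNth_mem_Icc]
    exact ⟨⟨le_refl _, (hab i).le⟩, hz⟩
  have hinsc : ∀ (i : Fin (n + 1)) (s : ℝ), Continuous fun z : Fin n → ℝ =>
      (i.insertNth s z : Fin (n + 1) → ℝ) := by
    intro i s
    exact Continuous.finInsertNth i continuous_const continuous_id
  have hFb : ∀ (i : Fin (n + 1)) (s : ℝ), Integrable (fun z : Fin n → ℝ => F (i.insertNth s z))
      (volume.restrict (Icc (i.removeNth a) (i.removeNth b))) := fun i s =>
    (hFc.comp (hinsc i s)).continuousOn.integrableOn_compact isCompact_Icc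
  have hvi0 : ∀ i, 0 ≤ vi i := fun i => ENNReal.toReal_nonneg
  have hconst : ∀ (i : Fin (n + 1)) (k : ℝ),
      ∫ _z in Icc (i.removeNth a) (i.removeNth b), k = vi i * k := by
    intro i k
    rw [setIntegral_const, smul_eq_mul, Measure.real]
  -- `0 ≤ ε`
  have hε0 : 0 ≤ ε := by
    have h1 : b ∈ Icc a b := ⟨fun i => (hab i).le, le_refl _⟩
    exact (hFpos b).le.trans (hε1 b h1 0 rfl)
  set Fa : ℝ := ∫ z in Icc ((0 : Fin (n + 1)).removeNth a) ((0 : Fin (n + 1)).removeNth b),
      F ((0 : Fin (n + 1)).insertNth (a 0) z) with hFa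
  -- boundary terms
  have hbd : ∀ i : Fin (n + 1), ∫ z in Icc (i.removeNth a) (i.removeNth b),
        (F (i.insertNth (b i) z) * S i (i.insertNth (b i) z) -
          F (i.insertNth (a i) z) * S i (i.insertNth (a i) z)) ≤
      ε * ((|c i| + |d i| + τ) * vi i) - (if i = 0 then τ * Fa else 0) := by
    intro i
    have hSb : ∀ z : Fin n → ℝ, S i (i.insertNth (b i) z) = d i + e i := by
      intro z
      simp only [hS]
      rw [hTb _ i (hap i (b i) z)]
    have hSa : ∀ z : Fin n → ℝ, S i (i.insertNth (a i) z) = c i + e i := by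
      intro z
      simp only [hS]
      rw [hTa _ i (hap i (a i) z)]
    simp only [hSb, hSa]
    rw [integral_sub ((hFb i (b i)).mul_const _) ((hFb i (a i)).mul_const _), integral_mul_const,
      integral_mul_const]
    have hub : ∫ z in Icc (i.removeNth a) (i.removeNth b), F (i.insertNth (b i) z) ≤ vi i * ε := by
      rw [← hconst i ε]
      refine setIntegral_mono_on (hFb i (b i)) (hci i ε) measurableSet_Icc fun z hz => ?_
      exact hε1 _ (hmemb i z hz) i (hap i (b i) z)
    have hub0 : 0 ≤ ∫ z in Icc (i.removeNth a) (i.removeNth b), F (i.insertNth (b i) z) :=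
      integral_nonneg fun z => (hFpos _).le
    have hla0 : 0 ≤ ∫ z in Icc (i.removeNth a) (i.removeNth b), F (i.insertNth (a i) z) :=
      integral_nonneg fun z => (hFpos _).le
    by_cases hi : i = 0
    · subst hi
      have hd0 : 0 < d 0 := by have := hcd 0; rw [hc0] at this; exact this
      simp only [he, if_true, hc0, abs_zero, zero_add]
      rw [abs_of_pos hd0]
      have h1 := mul_le_mul_of_nonneg_right hub (add_nonneg hd0.le hτ)
      have h2 : Fa * τ = τ * Fa := mul_comm _ _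
      rw [← hFa]
      nlinarith [h1]
    · have hua : ∫ z in Icc (i.removeNth a) (i.removeNth b), F (i.insertNth (a i) z) ≤ vi i * ε := by
        rw [← hconst i ε]
        refine setIntegral_mono_on (hFb i (a i)) (hci i ε) measurableSet_Icc fun z hz => ?_
        exact hε2 _ (hmema i z hz) i hi (hap i (a i) z)
      simp only [he, if_neg hi, add_zero, sub_zero]
      set Ib := ∫ z in Icc (i.removeNth a) (i.removeNth b), F (i.insertNth (b i) z)
      set Ia := ∫ z in Icc (i.removeNth a) (i.removeNth b), F (i.insertNth (a i) z)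
      have h1 : Ib * d i ≤ vi i * ε * |d i| :=
        (mul_le_mul_of_nonneg_left (le_abs_self (d i)) hub0).trans
          (mul_le_mul_of_nonneg_right hub (abs_nonneg _))
      have h2 : -(Ia * c i) ≤ vi i * ε * |c i| := by
        have h3 : -(Ia * c i) ≤ Ia * |c i| := by
          have := mul_le_mul_of_nonneg_left (neg_abs_le (c i)) hla0
          linarith
        exact h3.trans (mul_le_mul_of_nonneg_right hua (abs_nonneg _))
      have h4 : 0 ≤ ε * (τ * vi i) := mul_nonneg hε0 (mul_nonneg hτ (hvi0 i))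
      nlinarith [h1, h2, h4]
  -- sum
  have hi1 : ∀ i, IntegrableOn (fun x => F x * D x i) (Icc a b) := fun i =>
    (hFc.mul (hDi i)).continuousOn.integrableOn_compact isCompact_Icc
  have hi2 : ∀ i, IntegrableOn (fun x => F' x i * S i x) (Icc a b) := fun i =>
    ((hF'i i).mul (hSc i).continuousOn).integrableOn_compact isCompact_Icc
  have hsum : ∫ x in Icc a b, ∑ i, F x * D x i ≤
      ε * (∑ i, (|c i| + |d i| + τ) * vi i) - τ * Fa - ∫ x in Icc a b, ∑ i, F' x i * S i x := by
    rw [integral_finsetSum _ (fun i _ => hi1 i), integral_finsetSum _ (fun i _ => hi2 i)]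
    simp only [hibp]
    rw [Finset.sum_sub_distrib]
    have h1 := Finset.sum_le_sum (fun i (_ : i ∈ Finset.univ) => hbd i)
    rw [Finset.sum_sub_distrib, ← Finset.mul_sum, Finset.sum_ite_eq' Finset.univ (0 : Fin (n + 1))] at h1
    simp only [Finset.mem_univ, if_true] at h1
    linarith
  -- lower bound
  have hlow : ((n : ℝ) + 1) * (∫ y in Icc c d, g y ^ ((n : ℝ) / ((n : ℝ) + 1))) ≤
      ∫ x in Icc a b, ∑ i, F x * D x i := by
    have hgc : Continuous fun y => g y ^ (-(1 : ℝ) / ((n : ℝ) + 1)) :=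
      hg.rpow_const fun x => Or.inl (hg0 x).ne'
    have h1 : ∫ y in Icc c d, g y ^ ((n : ℝ) / ((n : ℝ) + 1)) =
        ∫ x in Icc a b, g (T x) ^ (-(1 : ℝ) / ((n : ℝ) + 1)) * f x := by
      rw [hpush _ hgc]
      exact integral_congr_ae (Filter.Eventually.of_forall fun y => (pow_id2 n (g y) (hg0 y)).symm)
    rw [h1, ← integral_const_mul]
    refine setIntegral_mono_on ?_ ?_ measurableSet_Icc fun x hx => ?_
    · exact (((hgc.comp hTc).mul hf).continuousOn.integrableOn_compact isCompact_Icc).const_mul _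
    · exact integrable_finsetSum _ fun i _ => hi1 i
    · have hP : 0 < ∏ i, D x i := Finset.prod_pos fun i _ => hD0 x i
      have e1 := pow_id n (f x) (g (T x)) (∏ i, D x i) (hf0 x) (hg0 _) hP (hprod x hx)
      rw [← e1, ← hF x, ← Finset.mul_sum]
      have h2 := mul_le_mul_of_nonneg_left (amgm n (D x) (hD0 x)) (hFpos x).le
      calc ((n : ℝ) + 1) * (F x * (∏ i, D x i) ^ ((1 : ℝ) / ((n : ℝ) + 1)))
          = F x * (((n : ℝ) + 1) * (∏ i, D x i) ^ ((1 : ℝ) / ((n : ℝ) + 1))) := by ring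
        _ ≤ F x * ∑ i, D x i := h2
  -- upper bound
  have hrho : ∀ x, ∑ i, S i x ^ 2 = rho n τ (T x) := by
    intro x
    rw [Fin.sum_univ_succ]
    simp only [hS, he, rho, if_true, Fin.succ_ne_zero, if_false, add_zero]
  have hAc : ContinuousOn (fun x => (∑ i, F' x i ^ 2) / f x) (Icc a b) := by
    refine ContinuousOn.div ?_ hf.continuousOn fun x _ => (hf0 x).ne'
    exact continuousOn_finsetSum _ fun i _ => (hF'i i).pow 2
  have hBc : Continuous fun x => rho n τ (T x) * f x := ((continuous_rho n τ).comp hTc).mul hf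
  have hup : -(∫ x in Icc a b, ∑ i, F' x i * S i x) ≤
      Real.sqrt (∫ x in Icc a b, (∑ i, F' x i ^ 2) / f x) *
        Real.sqrt (∫ y in Icc c d, rho n τ y * g y) := by
    rw [← hpush _ (continuous_rho n τ)]
    refine le_trans ?_ (cs_box hAc hBc.continuousOn
      (fun x _ => div_nonneg (Finset.sum_nonneg fun i _ => sq_nonneg _) (hf0 x).le)
      (fun x _ => mul_nonneg (rho_nonneg n τ _) (hf0 x).le))
    rw [← integral_neg]
    refine setIntegral_mono_on ?_ ?_ measurableSet_Icc fun x hx => ?_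
    · exact (integrable_finsetSum _ fun i _ => hi2 i).neg
    · exact ((Real.continuous_sqrt.comp_continuousOn hAc).mul
        (Real.continuous_sqrt.comp_continuousOn hBc.continuousOn)).integrableOn_compact isCompact_Icc
    · rw [← Real.sqrt_mul (div_nonneg (Finset.sum_nonneg fun i _ => sq_nonneg _) (hf0 x).le)]
      have e1 : (∑ i, F' x i ^ 2) / f x * (rho n τ (T x) * f x) =
          (∑ i, F' x i ^ 2) * ∑ i, S i x ^ 2 := by
        rw [← hrho x]
        have := (hf0 x).ne'
        field_simp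
      rw [e1]
      refine Real.le_sqrt_of_sq_le ?_
      rw [neg_sq]
      exact Finset.sum_mul_sq_le_sq_mul_sq _ _ _
  linarith

end Pool.Agent.CY.S1
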