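import Pool.Agent.CY.S1.HalfInt

/-!
Project CY, part S1, module Const: the three limits of box integrals of the bubble.

PROOF PLAN.  `G y = (1 + rho n τ y)^(-(n+1))`.  (i) `half_int` with `k = n`, `α = n+1`: the value is
`π^(n/2) Γ(n/2+1)/Γ(n+1) * I_n`, and the duplication formula (`Real.Gamma_mul_Gamma_add_half` with `s = n/2`:
`Γ(n/2) Γ((n+1)/2) = Γ(n) 2^(1-n) √π`) together with `Γ(n/2+1) = (n/2) Γ(n/2)`, `Γ(n+1) = n Γ(n)` gives
`π^(n/2) Γ(n/2+1)/Γ(n+1) = (1/2) π^(n/2) Γ(n/2)/Γ(n) = 2^(-(n+1)) * om n`.  (ii) `G^(n/(n+1)) = (1+rho)^(-n)`: `half_int` with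
`k = n-2`, `α = n`: `π^(n/2) Γ(n/2)/Γ(n) = 2^(-n) om n`.  (iii) `rho * G = (1+rho)^(-n) - (1+rho)^(-(n+1))`.
The boxes `Icc (bxa n R) (bxb n R)` increase to `{y | 0 ≤ y 0}`, which differs from `{y | 0 < y 0}` by a null set
(the hyperplane: `Measure.addHaar_...`/`volume_preserving_piFinSuccAbove`); use `tendsto_setIntegral_of_monotone`
(for the monotone family over `ℝ`, `Monotone fun R => Icc (bxa n R) (bxb n R)`, union over `R`) or dominated convergence for indicators.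
-/

set_option autoImplicit false

open MeasureTheory Set Function Filter Topology

namespace Pool.Agent.CY.S1

theorem gam2 (n : ℕ) (hn : 2 ≤ n) :
    Real.pi ^ ((n : ℝ) / 2) * Real.Gamma ((n : ℝ) / 2) / Real.Gamma n = (2 : ℝ) ^ (-(n : ℝ)) * om n := by
  have hn' : (2 : ℝ) ≤ n := by exact_mod_cast hn
  have h1 := Real.Gamma_mul_Gamma_add_half ((n : ℝ) / 2)
  have h2 : (n : ℝ) / 2 + 1 / 2 = ((n : ℝ) + 1) / 2 := by ring
  have h3 : 2 * ((n : ℝ) / 2) = n := by ring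
  rw [h2, h3] at h1
  have g1 : 0 < Real.Gamma (((n : ℝ) + 1) / 2) := Real.Gamma_pos_of_pos (by positivity)
  have g2 : 0 < Real.Gamma (n : ℝ) := Real.Gamma_pos_of_pos (by linarith)
  unfold om
  have e1 : Real.pi ^ (((n : ℝ) + 1) / 2) = Real.pi ^ ((n : ℝ) / 2) * Real.sqrt Real.pi := by
    rw [Real.sqrt_eq_rpow, ← Real.rpow_add Real.pi_pos]; congr 1; ring
  have e2 : (2 : ℝ) ^ (1 - (n : ℝ)) = 2 * (2 : ℝ) ^ (-(n : ℝ)) := by
    rw [sub_eq_add_neg, Real.rpow_add (by norm_num), Real.rpow_one]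
  rw [e2] at h1
  rw [e1, div_eq_iff g2.ne']
  field_simp
  linear_combination h1

theorem gam1 (n : ℕ) (hn : 2 ≤ n) :
    Real.pi ^ ((n : ℝ) / 2) * Real.Gamma ((n : ℝ) / 2 + 1) / Real.Gamma ((n : ℝ) + 1) =
      (2 : ℝ) ^ (-((n : ℝ) + 1)) * om n := by
  have hn' : (2 : ℝ) ≤ n := by exact_mod_cast hn
  have g2 : 0 < Real.Gamma (n : ℝ) := Real.Gamma_pos_of_pos (by linarith)
  have hn0 : (n : ℝ) ≠ 0 := by linarith
  rw [Real.Gamma_add_one (by positivity : (n : ℝ) / 2 ≠ 0), Real.Gamma_add_one hn0]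
  have h := gam2 n hn
  have e2 : (2 : ℝ) ^ (-((n : ℝ) + 1)) = (1 / 2) * (2 : ℝ) ^ (-(n : ℝ)) := by
    rw [neg_add, Real.rpow_add (by norm_num), Real.rpow_neg_one]; ring
  rw [e2, mul_assoc, ← h]
  field_simp

theorem box_tendsto (n : ℕ) (f : (Fin (n + 1) → ℝ) → ℝ) (hf : IntegrableOn f {y | 0 < y 0}) :
    Tendsto (fun R : ℝ => ∫ y in Icc (bxa n R) (bxb n R), f y) atTop
      (𝓝 (∫ y in {y : Fin (n + 1) → ℝ | 0 < y 0}, f y)) := by
  have hmono : Monotone fun R : ℝ => Icc (bxa n R) (bxb n R) := by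
    intro R R' h
    refine Icc_subset_Icc ?_ ?_
    · intro j
      refine Fin.cases ?_ (fun k => ?_) j
      · rw [bxa_zero, bxa_zero]
      · rw [bxa_succ, bxa_succ]; linarith
    · intro j; rw [bxb_apply, bxb_apply]; exact h
  have hun : (⋃ R : ℝ, Icc (bxa n R) (bxb n R)) = {y : Fin (n + 1) → ℝ | 0 ≤ y 0} := by
    ext y
    simp only [mem_iUnion, mem_ofPred_eq]
    constructor
    · rintro ⟨R, hR⟩
      have := hR.1 0
      rwa [bxa_zero] at this
    · intro hy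
      refine ⟨∑ j, |y j|, ?_, ?_⟩
      · intro j
        refine Fin.cases ?_ (fun k => ?_) j
        · rw [bxa_zero]; exact hy
        · rw [bxa_succ]
          have := Finset.single_le_sum (f := fun j => |y j|) (fun j _ => abs_nonneg _)
            (Finset.mem_univ k.succ)
          have h2 := neg_abs_le (y k.succ)
          have h3 : |y k.succ| ≤ ∑ j, |y j| := this
          linarith
      · intro j
        rw [bxb_apply]
        have := Finset.single_le_sum (f := fun j => |y j|) (fun j _ => abs_nonneg _)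
          (Finset.mem_univ j)
        exact (le_abs_self _).trans this
  have hae : ({y : Fin (n + 1) → ℝ | 0 ≤ y 0} : Set _) =ᵐ[volume] {y : Fin (n + 1) → ℝ | 0 < y 0} := by
    have h0 : ∀ᵐ y : Fin (n + 1) → ℝ, y 0 ≠ 0 := Measure.ae_eval_ne (fun _ => volume) (0 : Fin (n + 1)) 0
    filter_upwards [h0] with y hy
    apply propext
    constructor
    · intro h
      exact lt_of_le_of_ne h (Ne.symm hy)
    · intro h
      exact le_of_lt h
  have h := tendsto_setIntegral_of_monotone (μ := volume) (f := f) (s := fun R : ℝ => Icc (bxa n R) (bxb n R))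
    (fun R => measurableSet_Icc) hmono (by rw [hun]; exact hf.congr_set_ae hae)
  rw [hun, setIntegral_congr_set hae] at h
  exact h

theorem box_limits (n : ℕ) (hn : 2 ≤ n) (τ : ℝ) :
    Tendsto (fun R : ℝ => ∫ y in Icc (bxa n R) (bxb n R), (1 + rho n τ y) ^ (-((n : ℝ) + 1))) atTop
      (𝓝 ((2 : ℝ) ^ (-((n : ℝ) + 1)) *
        (om n * ∫ s in (0 : ℝ)..(Real.pi / 2 - Real.arctan τ), Real.sin s ^ n))) ∧
    Tendsto (fun R : ℝ => ∫ y in Icc (bxa n R) (bxb n R),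
        ((1 + rho n τ y) ^ (-((n : ℝ) + 1))) ^ ((n : ℝ) / ((n : ℝ) + 1))) atTop
      (𝓝 ((2 : ℝ) ^ (-(n : ℝ)) *
        (om n * ∫ s in (0 : ℝ)..(Real.pi / 2 - Real.arctan τ), Real.sin s ^ (n - 2)))) ∧
    Tendsto (fun R : ℝ => ∫ y in Icc (bxa n R) (bxb n R),
        rho n τ y * (1 + rho n τ y) ^ (-((n : ℝ) + 1))) atTop
      (𝓝 ((2 : ℝ) ^ (-(n : ℝ)) *
        (om n * ∫ s in (0 : ℝ)..(Real.pi / 2 - Real.arctan τ), Real.sin s ^ (n - 2)) -
        (2 : ℝ) ^ (-((n : ℝ) + 1)) *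
        (om n * ∫ s in (0 : ℝ)..(Real.pi / 2 - Real.arctan τ), Real.sin s ^ n))) := by
  obtain ⟨a1, a2⟩ := half_int n n τ ((n : ℝ) + 1) (by ring)
  obtain ⟨b1, b2⟩ := half_int n (n - 2) τ (n : ℝ) (by
    rw [Nat.cast_sub hn]; push_cast; ring)
  have hk : ((n - 2 : ℕ) : ℝ) / 2 + 1 = (n : ℝ) / 2 := by
    rw [Nat.cast_sub hn]; push_cast; ring
  rw [gam1 n hn] at a2
  rw [hk, gam2 n hn] at b2
  have hpos : ∀ y : Fin (n + 1) → ℝ, 0 < 1 + rho n τ y := fun y => by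
    have := rho_nonneg n τ y; linarith
  have e1 : ∀ y : Fin (n + 1) → ℝ,
      ((1 + rho n τ y) ^ (-((n : ℝ) + 1))) ^ ((n : ℝ) / ((n : ℝ) + 1)) = (1 + rho n τ y) ^ (-(n : ℝ)) := by
    intro y
    rw [← Real.rpow_mul (hpos y).le]
    congr 1
    field_simp
  have e2 : ∀ y : Fin (n + 1) → ℝ,
      rho n τ y * (1 + rho n τ y) ^ (-((n : ℝ) + 1)) =
        (1 + rho n τ y) ^ (-(n : ℝ)) - (1 + rho n τ y) ^ (-((n : ℝ) + 1)) := by
    intro y
    have : (1 + rho n τ y) ^ (-(n : ℝ)) = (1 + rho n τ y) * (1 + rho n τ y) ^ (-((n : ℝ) + 1)) := by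
      rw [← Real.rpow_one_add' (hpos y).le]
      · congr 1; ring
      · have : (2 : ℝ) ≤ n := by exact_mod_cast hn
        intro h; linarith
    rw [this]; ring
  refine ⟨?_, ?_, ?_⟩
  · have := box_tendsto n _ a1
    rw [a2, mul_assoc] at this
    exact this
  · simp only [e1]
    have := box_tendsto n _ b1
    rw [b2, mul_assoc] at this
    exact this
  · simp only [e2]
    have := box_tendsto n _ (b1.sub a1)
    simp only [Pi.sub_apply] at this
    rw [integral_sub b1 a1, a2, b2, mul_assoc, mul_assoc] at this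
    exact this

end Pool.Agent.CY.S1
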