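import Pool.Agent.CY.S1.Base

/-!
Project CY, part S1, module Coord: from the Euclidean space `V (n+1)` to `Fin (n+1) → ℝ`.
-/

set_option autoImplicit false

open MeasureTheory Set Function Filter Topology

namespace Pool.Agent.CY.S1

namespace CoordAux

/-- The clamp to the closed half space. -/
noncomputable def clp (n : ℕ) (y : Fin (n + 1) → ℝ) : Fin (n + 1) → ℝ := update y 0 (max (y 0) 0)

theorem clp_cont (n : ℕ) : Continuous (clp n) := by
  unfold clp
  exact continuous_id.update 0 ((continuous_apply 0).max continuous_const)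

theorem clp_of_nonneg (n : ℕ) (y : Fin (n + 1) → ℝ) (h : 0 ≤ y 0) : clp n y = y := by
  unfold clp
  rw [max_eq_left h, update_eq_self]

theorem clp_mem (n : ℕ) (y : Fin (n + 1) → ℝ) : WithLp.toLp 2 (clp n y) ∈ Hs n := by
  show 0 ≤ clp n y 0
  unfold clp
  rw [update_self]
  exact le_max_right _ _

theorem form_le {m : ℕ} (φ : V m →L[ℝ] ℝ) : ∑ i, φ (EuclideanSpace.single i 1) ^ 2 ≤ ‖φ‖ ^ 2 := by
  set S := ∑ i, φ (EuclideanSpace.single i 1) ^ 2 with hS
  have hS0 : 0 ≤ S := Finset.sum_nonneg (fun i _ => sq_nonneg _)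
  let w : V m := WithLp.toLp 2 (fun i => φ (EuclideanSpace.single i 1))
  have hw : w = ∑ i, φ (EuclideanSpace.single i 1) • (EuclideanSpace.single i (1 : ℝ) : V m) := by
    ext j
    simp [w, Pi.single_apply]
  have h1 : φ w = S := by
    rw [hw, map_sum, hS]
    refine Finset.sum_congr rfl (fun i _ => ?_)
    rw [map_smul, smul_eq_mul, sq]
  have h2 : ‖w‖ ^ 2 = S := by
    rw [EuclideanSpace.real_norm_sq_eq]
  have h3 : S ≤ ‖φ‖ * ‖w‖ := by
    rw [← h1]
    exact (le_abs_self _).trans (φ.le_opNorm w)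
  rcases hS0.eq_or_lt with h | h
  · rw [← h]; positivity
  · have hw0 : 0 < ‖w‖ := by
      by_contra hcon
      have : ‖w‖ = 0 := le_antisymm (not_lt.1 hcon) (norm_nonneg _)
      rw [this] at h2
      simp at h2
      linarith
    have h4 : ‖w‖ * ‖w‖ ≤ ‖φ‖ * ‖w‖ := by
      rw [← sq, h2]; exact h3
    have h5 : ‖w‖ ≤ ‖φ‖ := le_of_mul_le_mul_right h4 hw0
    rw [← h2]
    exact pow_le_pow_left₀ (norm_nonneg _) h5 2

theorem hyp_null (n : ℕ) : (volume : Measure (Fin (n + 1) → ℝ)) {y | y 0 = 0} = 0 :=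
  Measure.pi_hyperplane (μ := fun _ : Fin (n + 1) => (volume : Measure ℝ)) 0 0

theorem pos_meas (n : ℕ) : MeasurableSet {y : Fin (n + 1) → ℝ | 0 < y 0} :=
  (isOpen_lt continuous_const (continuous_apply 0)).measurableSet

theorem int_box (n : ℕ) (L : ℝ) (F : (Fin (n + 1) → ℝ) → ℝ)
    (hF : ∀ y, 0 < y 0 → y ∉ Icc (bxa n L) (bxb n L) → F y = 0) :
    ∫ y in {y : Fin (n + 1) → ℝ | 0 < y 0}, F y = ∫ y in Icc (bxa n L) (bxb n L), F y := by
  rw [← integral_indicator (pos_meas n), ← integral_indicator measurableSet_Icc]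
  refine integral_congr_ae ?_
  have hne : ∀ᵐ y : Fin (n + 1) → ℝ, y 0 ≠ 0 := by
    rw [ae_iff]
    simpa using hyp_null n
  filter_upwards [hne] with y hy
  by_cases h1 : 0 < y 0
  · by_cases h2 : y ∈ Icc (bxa n L) (bxb n L)
    · rw [indicator_of_mem h2, indicator_of_mem (show y ∈ {y : Fin (n + 1) → ℝ | 0 < y 0} from h1)]
    · rw [indicator_of_notMem h2, indicator_of_mem (show y ∈ {y : Fin (n + 1) → ℝ | 0 < y 0} from h1)]
      exact hF y h1 h2
  · have h2 : y ∉ Icc (bxa n L) (bxb n L) := by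
      intro h
      have h3 := h.1 0
      rw [bxa_zero] at h3
      exact h1 (lt_of_le_of_ne h3 (Ne.symm hy))
    rw [indicator_of_notMem h2,
      indicator_of_notMem (show y ∉ {y : Fin (n + 1) → ℝ | 0 < y 0} from h1)]

theorem Hs_unique (n : ℕ) : UniqueDiffOn ℝ (Hs n) := by
  refine uniqueDiffOn_convex ?_ ?_
  · intro x hx y hy a b ha hb hab
    show 0 ≤ (a • x + b • y) 0
    have h1 : 0 ≤ x 0 := hx
    have h2 : 0 ≤ y 0 := hy
    have : (a • x + b • y) 0 = a * x 0 + b * y 0 := by simp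
    rw [this]
    positivity
  · refine ⟨EuclideanSpace.single 0 1, ?_⟩
    rw [mem_interior_iff_mem_nhds]
    have h1 : IsOpen (Ho n) := isOpen_lt continuous_const (by fun_prop)
    refine mem_of_superset (h1.mem_nhds ?_) (fun y hy => ?_)
    · show (0 : ℝ) < (EuclideanSpace.single (0 : Fin (n + 1)) (1 : ℝ)) 0
      simp
    · have h2 : 0 < y 0 := hy
      exact h2.le

theorem exists_of_not_mem (n : ℕ) (L : ℝ) (y : Fin (n + 1) → ℝ) (h0 : 0 ≤ y 0)
    (hy : y ∉ Icc (bxa n L) (bxb n L)) : ∃ i, L < |y i| := by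
  by_contra hcon
  push Not at hcon
  refine hy ⟨fun i => ?_, fun i => ?_⟩
  · refine Fin.cases ?_ (fun j => ?_) i
    · rw [bxa_zero]; exact h0
    · rw [bxa_succ]; exact (abs_le.1 (hcon j.succ)).1
  · rw [bxb_apply]; exact (abs_le.1 (hcon i)).2

end CoordAux

open CoordAux

theorem coord (n : ℕ) (u : V (n + 1) → ℝ) (hu : ContDiffOn ℝ 1 u (Hs n)) (hc : HasCompactSupport u) :
    ∃ (L : ℝ) (v : (Fin (n + 1) → ℝ) → ℝ) (v' : (Fin (n + 1) → ℝ) → Fin (n + 1) → ℝ),
      0 < L ∧ Continuous v ∧ ContinuousOn v' (Icc (bxa n L) (bxb n L)) ∧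
      (∀ x ∈ Icc (bxa n L) (bxb n L), ∀ i, HasDerivWithinAt (fun s => v (update x i s)) (v' x i)
        (Icc (bxa n L i) (bxb n L i)) (x i)) ∧
      (∀ x ∈ Icc (bxa n L) (bxb n L), ∀ i, x i = bxb n L i → v x = 0) ∧
      (∀ x ∈ Icc (bxa n L) (bxb n L), ∀ i, i ≠ 0 → x i = bxa n L i → v x = 0) ∧
      (∀ p : ℝ, 0 < p → ∫ x in Ho n, |u x| ^ p = ∫ x in Icc (bxa n L) (bxb n L), |v x| ^ p) ∧
      (∀ p : ℝ, 0 < p → ∫ z : V n, |u (bd z)| ^ p =
        ∫ z in Icc (fun _ : Fin n => -L) (fun _ => L), |v ((0 : Fin (n + 1)).insertNth 0 z)| ^ p) ∧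
      ∫ x in Icc (bxa n L) (bxb n L), ∑ i, v' x i ^ 2 ≤
        ∫ x in Ho n, ‖fderivWithin ℝ u (Hs n) x‖ ^ 2 := by
  obtain ⟨L, hL0, hL⟩ : ∃ L : ℝ, 0 < L ∧ ∀ x : V (n + 1), (∃ i, L ≤ |x i|) → x ∉ tsupport u := by
    obtain ⟨L0, hL0⟩ := hc.isCompact.isBounded.subset_closedBall 0
    refine ⟨max L0 0 + 1, by positivity, fun x hx h => ?_⟩
    obtain ⟨i, hi⟩ := hx
    have h1 := hL0 h
    rw [mem_closedBall_zero_iff] at h1
    have h2 : |x i| ≤ ‖x‖ := by
      have := PiLp.norm_apply_le (p := 2) x i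
      simpa using this
    have h3 := le_max_left L0 0
    linarith
  have hz : ∀ x : V (n + 1), (∃ i, L ≤ |x i|) → u x = 0 := by
    intro x hx
    by_contra h
    exact hL x hx (subset_tsupport u h)
  have hbox0 : ∀ x ∈ Icc (bxa n L) (bxb n L), 0 ≤ x 0 := by
    intro x hx
    have := hx.1 0
    rwa [bxa_zero] at this
  have hboxHs : ∀ x ∈ Icc (bxa n L) (bxb n L), WithLp.toLp 2 x ∈ Hs n := hbox0
  have htoLp : Continuous (fun y : Fin (n + 1) → ℝ => (WithLp.toLp 2 y : V (n + 1))) :=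
    PiLp.continuous_toLp 2 _
  have hfd : ContinuousOn (fderivWithin ℝ u (Hs n)) (Hs n) :=
    hu.continuousOn_fderivWithin (Hs_unique n) (by norm_num)
  have hfdb : ContinuousOn (fun y : Fin (n + 1) → ℝ => fderivWithin ℝ u (Hs n) (WithLp.toLp 2 y))
      (Icc (bxa n L) (bxb n L)) :=
    hfd.comp htoLp.continuousOn hboxHs
  refine ⟨L, fun y => u (WithLp.toLp 2 (clp n y)),
    fun y i => fderivWithin ℝ u (Hs n) (WithLp.toLp 2 y) (EuclideanSpace.single i 1),
    hL0, ?_, ?_, ?_, ?_, ?_, ?_, ?_, ?_⟩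
  · exact hu.continuousOn.comp_continuous (htoLp.comp (clp_cont n)) (clp_mem n)
  · refine continuousOn_pi.2 (fun i => ?_)
    exact hfdb.clm_apply continuousOn_const
  · intro x hx i
    have hup : ∀ s ∈ Icc (bxa n L i) (bxb n L i), 0 ≤ update x i s 0 := by
      intro s hs
      by_cases hi : i = 0
      · subst hi
        rw [update_self]
        have := hs.1
        rwa [bxa_zero] at this
      · rw [update_of_ne (Ne.symm hi)]
        exact hbox0 x hx
    have hxi : x i ∈ Icc (bxa n L i) (bxb n L i) := ⟨hx.1 i, hx.2 i⟩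
    have h1 : HasFDerivWithinAt u (fderivWithin ℝ u (Hs n) (WithLp.toLp 2 x)) (Hs n)
        (WithLp.toLp 2 x) :=
      (hu.differentiableOn (by norm_num) _ (hboxHs x hx)).hasFDerivWithinAt
    have h2 : HasDerivWithinAt (fun s : ℝ => (WithLp.toLp 2 (update x i s) : V (n + 1)))
        (EuclideanSpace.single i 1) (Icc (bxa n L i) (bxb n L i)) (x i) := by
      have h3 := (hasDerivAt_update x i (x i)).hasDerivWithinAt (s := Icc (bxa n L i) (bxb n L i))
      have h4 := (EuclideanSpace.equiv (Fin (n + 1)) ℝ).symm.toContinuousLinearMap.hasFDerivAt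
        (x := update x i (x i)) |>.comp_hasDerivWithinAt (x i) h3
      exact h4
    have h5 := HasFDerivWithinAt.comp_hasDerivWithinAt_of_eq (x := x i) (t := Hs n) h1 h2
      (fun s hs => hup s hs) (by rw [update_eq_self])
    refine h5.congr (fun s hs => ?_) ?_
    · show u (WithLp.toLp 2 (clp n (update x i s))) = u (WithLp.toLp 2 (update x i s))
      rw [clp_of_nonneg n _ (hup s hs)]
    · show u (WithLp.toLp 2 (clp n (update x i (x i)))) = u (WithLp.toLp 2 (update x i (x i)))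
      rw [clp_of_nonneg n _ (hup _ hxi)]
  · intro x hx i hi
    show u (WithLp.toLp 2 (clp n x)) = 0
    rw [clp_of_nonneg n _ (hbox0 x hx)]
    refine hz _ ⟨i, ?_⟩
    show L ≤ |x i|
    rw [hi, bxb_apply]
    exact le_abs_self L
  · intro x hx i hi0 hi
    show u (WithLp.toLp 2 (clp n x)) = 0
    rw [clp_of_nonneg n _ (hbox0 x hx)]
    refine hz _ ⟨i, ?_⟩
    show L ≤ |x i|
    obtain ⟨j, rfl⟩ := Fin.exists_succ_eq.2 hi0
    rw [hi, bxa_succ, abs_neg]
    exact le_abs_self L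
  · intro p hp
    have h1 := (PiLp.volume_preserving_toLp (Fin (n + 1))).setIntegral_preimage_emb
      (MeasurableEquiv.toLp 2 (Fin (n + 1) → ℝ)).measurableEmbedding
      (fun x : V (n + 1) => |u x| ^ p) (Ho n)
    rw [← h1]
    have h2 : (fun y : Fin (n + 1) → ℝ => (WithLp.toLp 2 y : V (n + 1))) ⁻¹' Ho n =
        {y : Fin (n + 1) → ℝ | 0 < y 0} := rfl
    rw [h2]
    have h3 : ∫ y in {y : Fin (n + 1) → ℝ | 0 < y 0}, |u (WithLp.toLp 2 y)| ^ p
        = ∫ y in {y : Fin (n + 1) → ℝ | 0 < y 0}, |u (WithLp.toLp 2 (clp n y))| ^ p := by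
      refine setIntegral_congr_fun (pos_meas n) (fun y hy => ?_)
      have hy' : 0 < y 0 := hy
      show |u (WithLp.toLp 2 y)| ^ p = |u (WithLp.toLp 2 (clp n y))| ^ p
      rw [clp_of_nonneg n _ hy'.le]
    rw [h3]
    refine int_box n L _ (fun y hy hyn => ?_)
    obtain ⟨i, hi⟩ := exists_of_not_mem n L y hy.le hyn
    rw [clp_of_nonneg n _ hy.le, hz _ ⟨i, hi.le⟩, abs_zero, Real.zero_rpow hp.ne']
  · intro p hp
    have h1 := (PiLp.volume_preserving_toLp (Fin n)).integral_comp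
      (MeasurableEquiv.toLp 2 (Fin n → ℝ)).measurableEmbedding
      (fun z : V n => |u (bd z)| ^ p)
    rw [← h1]
    have h2 : ∀ z : Fin n → ℝ, u (bd (WithLp.toLp 2 z)) =
        u (WithLp.toLp 2 (clp n ((0 : Fin (n + 1)).insertNth 0 z))) := by
      intro z
      rw [clp_of_nonneg n _ (by simp), Fin.insertNth_zero']
      rfl
    simp only [h2]
    refine (setIntegral_eq_integral_of_forall_compl_eq_zero (fun z hz' => ?_)).symm
    have h3 : ∃ i, L < |z i| := by
      by_contra hcon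
      push Not at hcon
      exact hz' ⟨fun i => (abs_le.1 (hcon i)).1, fun i => (abs_le.1 (hcon i)).2⟩
    obtain ⟨i, hi⟩ := h3
    rw [clp_of_nonneg n _ (by simp), hz _ ⟨i.succ, ?_⟩, abs_zero, Real.zero_rpow hp.ne']
    show L ≤ |((0 : Fin (n + 1)).insertNth 0 z : Fin (n + 1) → ℝ) i.succ|
    rw [Fin.insertNth_zero', Fin.cons_succ]
    exact hi.le
  · have h1 := (PiLp.volume_preserving_toLp (Fin (n + 1))).setIntegral_preimage_emb
      (MeasurableEquiv.toLp 2 (Fin (n + 1) → ℝ)).measurableEmbedding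
      (fun x : V (n + 1) => ‖fderivWithin ℝ u (Hs n) x‖ ^ 2) (Ho n)
    rw [← h1]
    have h2 : (fun y : Fin (n + 1) → ℝ => (WithLp.toLp 2 y : V (n + 1))) ⁻¹' Ho n =
        {y : Fin (n + 1) → ℝ | 0 < y 0} := rfl
    rw [h2]
    have h3 : ∀ y : Fin (n + 1) → ℝ, 0 < y 0 → y ∉ Icc (bxa n L) (bxb n L) →
        ‖fderivWithin ℝ u (Hs n) (WithLp.toLp 2 y)‖ ^ 2 = 0 := by
      intro y hy hyn
      obtain ⟨i, hi⟩ := exists_of_not_mem n L y hy.le hyn
      have h4 : (WithLp.toLp 2 y : V (n + 1)) ∉ tsupport u := hL _ ⟨i, hi.le⟩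
      have h5 : u =ᶠ[𝓝 (WithLp.toLp 2 y : V (n + 1))] fun _ => 0 :=
        notMem_tsupport_iff_eventuallyEq.1 h4
      have h6 : fderivWithin ℝ u (Hs n) (WithLp.toLp 2 y)
          = fderivWithin ℝ (fun _ : V (n + 1) => (0 : ℝ)) (Hs n) (WithLp.toLp 2 y) :=
        h5.fderivWithin_eq_of_nhds
      rw [h6]
      simp
    have h4 := int_box n L (fun y => ‖fderivWithin ℝ u (Hs n) (WithLp.toLp 2 y)‖ ^ 2) h3
    refine le_trans ?_ (le_of_eq h4.symm)
    refine setIntegral_mono_on ?_ ?_ measurableSet_Icc (fun y hy => ?_)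
    · refine ContinuousOn.integrableOn_compact isCompact_Icc ?_
      refine continuousOn_finset_sum _ (fun i _ => ?_)
      exact (hfdb.clm_apply continuousOn_const).pow 2
    · exact (hfdb.norm.pow 2).integrableOn_compact isCompact_Icc
    · exact form_le _

end Pool.Agent.CY.S1
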