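import Mathlib

/-!
Project CY, part S1, module Cot: a one-dimensional integral.

PROOF PLAN.  Put `P y = - ∫ s in 0..(π/2 - arctan y), sin s ^ k`.  Then
`P' y = sin (π/2 - arctan y) ^ k * (1/(1+y²)) = cos (arctan y) ^ k / (1+y²) = (1+y²)^(-(k/2+1))` (`Real.cos_arctan`), and
`P y → 0` as `y → ∞` (`Real.tendsto_arctan_atTop`, continuity of the primitive).  Use
`integrableOn_Ioi_deriv_of_nonneg` and `integral_Ioi_of_hasDerivAt_of_nonneg` (or `.._of_tendsto`).
-/

set_option autoImplicit false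

open MeasureTheory Set Function Filter Topology

namespace Pool.Agent.CY.S1

theorem cot_int (k : ℕ) (τ : ℝ) :
    IntegrableOn (fun y : ℝ => (1 + y ^ 2) ^ (-((k : ℝ) / 2 + 1))) (Ioi τ) ∧
    ∫ y in Ioi τ, (1 + y ^ 2) ^ (-((k : ℝ) / 2 + 1)) =
      ∫ s in (0 : ℝ)..(Real.pi / 2 - Real.arctan τ), Real.sin s ^ k := by
  set P : ℝ → ℝ := fun y => -∫ s in (0 : ℝ)..(Real.pi / 2 - Real.arctan y), Real.sin s ^ k with hP
  have hc : Continuous fun s : ℝ => Real.sin s ^ k := Real.continuous_sin.pow k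
  have hd : ∀ y, HasDerivAt P ((1 + y ^ 2) ^ (-((k : ℝ) / 2 + 1))) y := by
    intro y
    have h1 : HasDerivAt (fun u => ∫ s in (0 : ℝ)..u, Real.sin s ^ k)
        (Real.sin (Real.pi / 2 - Real.arctan y) ^ k) (Real.pi / 2 - Real.arctan y) :=
      (hc.integral_hasStrictDerivAt 0 _).hasDerivAt
    have h2 : HasDerivAt (fun y => Real.pi / 2 - Real.arctan y) (-(1 / (1 + y ^ 2))) y :=
      (Real.hasDerivAt_arctan y).const_sub _
    have h3 := (h1.comp y h2).neg
    refine h3.congr_deriv ?_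
    rw [Real.sin_pi_div_two_sub, Real.cos_arctan]
    have hy : 0 < 1 + y ^ 2 := by positivity
    rw [Real.sqrt_eq_rpow, one_div, ← Real.rpow_neg hy.le, ← Real.rpow_natCast, ← Real.rpow_mul hy.le,
      neg_add, Real.rpow_add hy, Real.rpow_neg_one]
    rw [mul_neg, neg_neg, one_div]
    congr 1
    · congr 1; ring
    · rw [one_div]
  have hlim : Tendsto P atTop (𝓝 0) := by
    have h1 : Tendsto (fun y => Real.pi / 2 - Real.arctan y) atTop (𝓝 0) := by
      have := (Real.tendsto_arctan_atTop.mono_right nhdsWithin_le_nhds).const_sub (Real.pi / 2)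
      simpa using this
    have h2 : Continuous fun u => ∫ s in (0 : ℝ)..u, Real.sin s ^ k :=
      intervalIntegral.continuous_primitive (fun a b => hc.intervalIntegrable a b) 0
    have h3 := ((h2.tendsto 0).comp h1).neg
    simpa [hP] using h3
  have hint := integrableOn_Ioi_deriv_of_nonneg (a := τ) (g := P)
    (g' := fun y => (1 + y ^ 2) ^ (-((k : ℝ) / 2 + 1))) (hd τ).continuousAt.continuousWithinAt
    (fun y _ => hd y) (fun y _ => by positivity) hlim
  refine ⟨hint, ?_⟩
  rw [integral_Ioi_of_hasDerivAt_of_tendsto (hd τ).continuousAt.continuousWithinAt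
    (fun y _ => hd y) hint hlim]
  simp [hP]

end Pool.Agent.CY.S1
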