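import Pool.Agent.CY.S1.Base

/-!
Project CY, part S1, module Wallis: `ω_{m+1} = 2 ω_m ∫_0^{π/2} sin^m`.

PROOF PLAN.  Induction by steps of two: `∫_0^{π/2} sin^(m+2) = (m+1)/(m+2) ∫_0^{π/2} sin^m` (`integral_sin_pow`) and
`om (m+2) = 2 π / (m+1) * om m` (`Real.Gamma_add_one`).  `m = 0`: `om 0 = 2` (`Real.Gamma_one_half_eq`), `om 1 = 2 π`;
`m = 1`: `om 2 = 4 π`, `∫_0^{π/2} sin = 1`.  (Alternatively from the Gamma/Beta form in Mathlib.)
-/

set_option autoImplicit false

open MeasureTheory Set Function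

namespace Pool.Agent.CY.S1

theorem om_pos (m : ℕ) : 0 < om m := by
  unfold om
  have h : (0 : ℝ) < ((m : ℝ) + 1) / 2 := by positivity
  have := Real.Gamma_pos_of_pos h
  positivity

theorem om_rec (m : ℕ) : om (m + 2) = 2 * Real.pi / ((m : ℝ) + 1) * om m := by
  unfold om
  have h : (((m + 2 : ℕ) : ℝ) + 1) / 2 = ((m : ℝ) + 1) / 2 + 1 := by push_cast; ring
  have h0 : ((m : ℝ) + 1) / 2 ≠ 0 := by positivity
  have hG : Real.Gamma (((m : ℝ) + 1) / 2) ≠ 0 :=
    (Real.Gamma_pos_of_pos (by positivity : (0 : ℝ) < ((m : ℝ) + 1) / 2)).ne'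
  rw [h, Real.Gamma_add_one h0, Real.rpow_add Real.pi_pos, Real.rpow_one]
  have hm : (m : ℝ) + 1 ≠ 0 := by positivity
  field_simp

theorem wallis (m : ℕ) : om m * ∫ s in (0 : ℝ)..(Real.pi / 2), Real.sin s ^ m = om (m + 1) / 2 := by
  have hom0 : om 0 = 2 := by
    unfold om
    have : Real.Gamma ((((0 : ℕ) : ℝ) + 1) / 2) = Real.pi ^ ((((0 : ℕ) : ℝ) + 1) / 2) := by
      push_cast
      rw [zero_add, Real.Gamma_one_half_eq, Real.sqrt_eq_rpow]
    rw [this]
    have hp : Real.pi ^ ((((0 : ℕ) : ℝ) + 1) / 2) ≠ 0 := by positivity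
    field_simp
  have hom1 : om 1 = 2 * Real.pi := by
    unfold om
    norm_num [Real.Gamma_one]
  have hom2 : om 2 = 4 * Real.pi := by
    have := om_rec 0
    rw [hom0] at this
    simp only [zero_add, Nat.cast_zero] at this
    rw [this]; ring
  induction m using Nat.twoStepInduction with
  | zero => rw [hom0, hom1]; simp; ring
  | one => rw [hom1, hom2]; simp; ring
  | more m ih1 ih2 =>
    have h := integral_sin_pow (a := 0) (b := Real.pi / 2) m
    have hm : (m : ℝ) + 1 ≠ 0 := by positivity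
    have hm2 : (m : ℝ) + 2 ≠ 0 := by positivity
    have h4 : ∫ s in (0 : ℝ)..(Real.pi / 2), Real.sin s ^ (m + 2) =
        ((m : ℝ) + 1) / ((m : ℝ) + 2) * ∫ s in (0 : ℝ)..(Real.pi / 2), Real.sin s ^ m := by
      rw [h]; simp
    have h5 : om (m + 2 + 1) = 2 * Real.pi / ((m : ℝ) + 2) * om (m + 1) := by
      have := om_rec (m + 1)
      rw [show m + 2 + 1 = m + 1 + 2 by ring, this]
      push_cast
      ring
    rw [h4, om_rec m, h5]
    calc _ = 2 * Real.pi / ((m : ℝ) + 2) * (om m * ∫ s in (0 : ℝ)..(Real.pi / 2), Real.sin s ^ m) := by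
          field_simp
      _ = _ := by rw [ih1]; ring

end Pool.Agent.CY.S1
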