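import Pool.Agent.CY.S1.Half
import Pool.Agent.CY.S1.Wallis

/-!
Project CY, part S1, target S1b: the sharp Sobolev inequality in `ℝ^n`, from the half space (`t = π/2`).

Write `n = m + 1`, `m ≥ 2`.  A hyperplane `{x 0 = c}` bisects `∫ |u|^p`; apply `halfspace_sharp` to the
two halves.
-/

set_option autoImplicit false

open MeasureTheory Set Function Filter Topology

namespace Pool.Agent.CY

namespace SobSAux

variable {m : ℕ}

/-- The first unit vector. -/
noncomputable def e0 (m : ℕ) : V (m + 1) := EuclideanSpace.single 0 1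

theorem e0_zero (m : ℕ) : e0 m 0 = 1 := by simp [e0]

theorem hyper_null (m : ℕ) (c : ℝ) : (volume : Measure (V (m + 1))) {y | y 0 = c} = 0 := by
  have h1 : (volume : Measure (Fin (m + 1) → ℝ)) {f | f 0 = c} = 0 :=
    Measure.pi_hyperplane (μ := fun _ : Fin (m + 1) => (volume : Measure ℝ)) 0 c
  have h2 := (PiLp.volume_preserving_ofLp (Fin (m + 1))).measure_preimage
    (s := {f : Fin (m + 1) → ℝ | f 0 = c})
    ((measurableSet_eq_fun (measurable_pi_apply 0) measurable_const).nullMeasurableSet)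
  rw [h1] at h2
  exact h2

theorem meas_gt (m : ℕ) (c : ℝ) : MeasurableSet {y : V (m + 1) | c < y 0} :=
  (isOpen_lt continuous_const (by fun_prop)).measurableSet

theorem meas_lt (m : ℕ) (c : ℝ) : MeasurableSet {y : V (m + 1) | y 0 < c} :=
  (isOpen_lt (by fun_prop) continuous_const).measurableSet

theorem Ho_meas (m : ℕ) : MeasurableSet (Ho m) := meas_gt m 0

theorem int_add (c : ℝ) (F : V (m + 1) → ℝ) :
    ∫ x in Ho m, F (x + c • e0 m) = ∫ y in {y | c < y 0}, F y := by
  have h := (measurePreserving_add_right (volume : Measure (V (m + 1))) (c • e0 m)).setIntegral_preimage_emb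
    (Homeomorph.addRight (c • e0 m)).measurableEmbedding F {y | c < y 0}
  rw [← h]
  have hs : (fun x : V (m + 1) => x + c • e0 m) ⁻¹' {y | c < y 0} = Ho m := by
    ext x
    simp [Ho, e0_zero]
  rw [hs]

theorem int_sub (c : ℝ) (F : V (m + 1) → ℝ) :
    ∫ x in Ho m, F (c • e0 m - x) = ∫ y in {y | y 0 < c}, F y := by
  have h := (Measure.measurePreserving_sub_left (volume : Measure (V (m + 1))) (c • e0 m)).setIntegral_preimage_emb
    (Homeomorph.subLeft (c • e0 m)).measurableEmbedding F {y | y 0 < c}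
  rw [← h]
  have hs : (fun x : V (m + 1) => c • e0 m - x) ⁻¹' {y | y 0 < c} = Ho m := by
    ext x
    simp [Ho, e0_zero]
  rw [hs]

theorem Ho_nhds {x : V (m + 1)} (hx : x ∈ Ho m) : Hs m ∈ 𝓝 x := by
  have h1 : IsOpen (Ho m) := isOpen_lt continuous_const (by fun_prop)
  refine mem_of_superset (h1.mem_nhds hx) (fun y hy => ?_)
  have h2 : 0 < y 0 := hy
  exact h2.le

/-- The cut function. -/
theorem cut_cont (F : V (m + 1) → ℝ) (hF : Integrable F) :
    Continuous (fun c : ℝ => ∫ y in {y : V (m + 1) | c < y 0}, F y) := by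
  have h0 : (fun c : ℝ => ∫ y in {y : V (m + 1) | c < y 0}, F y) =
      fun c : ℝ => ∫ y, indicator {y : V (m + 1) | c < y 0} F y := by
    funext c
    rw [integral_indicator (meas_gt m c)]
  rw [h0, continuous_iff_continuousAt]
  intro c₀
  refine continuousAt_of_dominated (bound := fun y => ‖F y‖) ?_ ?_ hF.norm ?_
  · exact Eventually.of_forall (fun c => (hF.indicator (meas_gt m c)).aestronglyMeasurable)
  · refine Eventually.of_forall (fun c => Eventually.of_forall (fun y => ?_))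
    exact norm_indicator_le_norm_self _ _
  · have hne : ∀ᵐ y : V (m + 1), y 0 ≠ c₀ := by
      rw [ae_iff]
      simpa using hyper_null m c₀
    filter_upwards [hne] with y hy
    rcases lt_or_gt_of_ne hy with h | h
    · have : (fun c : ℝ => indicator {y : V (m + 1) | c < y 0} F y) =ᶠ[𝓝 c₀] fun _ => 0 := by
        filter_upwards [lt_mem_nhds h] with c hc
        simp [indicator, not_lt.2 hc.le]
      exact (continuousAt_const.congr this.symm)
    · have : (fun c : ℝ => indicator {y : V (m + 1) | c < y 0} F y) =ᶠ[𝓝 c₀] fun _ => F y := by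
        filter_upwards [gt_mem_nhds h] with c hc
        simp [indicator, hc]
      exact (continuousAt_const.congr this.symm)

theorem exists_cut (F : V (m + 1) → ℝ) (hF : Integrable F) (hF0 : ∀ y, 0 ≤ F y)
    (L : ℝ) (hL : ∀ y, L < ‖y‖ → F y = 0) :
    ∃ c : ℝ, ∫ y in {y : V (m + 1) | c < y 0}, F y = (∫ y, F y) / 2 ∧
      ∫ y in {y : V (m + 1) | y 0 < c}, F y = (∫ y, F y) / 2 := by
  have hA0 : 0 ≤ ∫ y, F y := integral_nonneg hF0
  have h1 : (∫ y, F y) / 2 ∈ range (fun c : ℝ => ∫ y in {y : V (m + 1) | c < y 0}, F y) := by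
    refine mem_range_of_exists_le_of_exists_ge (cut_cont F hF) ⟨L, ?_⟩ ⟨-L - 1, ?_⟩
    · have : ∫ y in {y : V (m + 1) | L < y 0}, F y = 0 := by
        refine setIntegral_eq_zero_of_forall_eq_zero (fun y hy => hL y ?_)
        have h2 : |y 0| ≤ ‖y‖ := by
          have := PiLp.norm_apply_le (p := 2) y 0
          simpa using this
        exact lt_of_lt_of_le hy ((le_abs_self _).trans h2)
      simp only
      rw [this]
      linarith
    · have : ∫ y in {y : V (m + 1) | -L - 1 < y 0}, F y = ∫ y, F y := by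
        refine setIntegral_eq_integral_of_forall_compl_eq_zero (fun y hy => hL y ?_)
        have h2 : |y 0| ≤ ‖y‖ := by
          have := PiLp.norm_apply_le (p := 2) y 0
          simpa using this
        have h3 : y 0 ≤ -L - 1 := not_lt.1 hy
        have h4 : -(y 0) ≤ |y 0| := neg_le_abs _
        linarith
      simp only
      rw [this]
      linarith
  obtain ⟨c, hc⟩ := h1
  refine ⟨c, hc, ?_⟩
  have h2 := integral_add_compl (meas_gt m c) hF
  have h3 : ∫ y in {y : V (m + 1) | c < y 0}ᶜ, F y = ∫ y in {y : V (m + 1) | y 0 < c}, F y := by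
    refine setIntegral_congr_set ?_
    have hne : ∀ᵐ y : V (m + 1), y 0 ≠ c := by
      rw [ae_iff]
      simpa using hyper_null m c
    filter_upwards [hne] with y hy
    have : ({y : V (m + 1) | c < y 0}ᶜ : Set (V (m + 1))) y = ({y : V (m + 1) | y 0 < c}) y := by
      apply propext
      constructor
      · intro h
        exact lt_of_le_of_ne (not_lt.1 h) hy
      · intro h
        exact not_lt.2 (le_of_lt h)
    exact this
  rw [h3] at h2
  simp only at hc
  linarith

end SobSAux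

open SobSAux

/-- S1b: the sharp Sobolev inequality in `ℝ^n`. -/
theorem sobolev_sharp (n : ℕ) (hn : 3 ≤ n) (u : V n → ℝ) (hu : ContDiff ℝ 1 u) (hc : HasCompactSupport u) :
    Yn n * (∫ x, |u x| ^ (2 * (n : ℝ) / ((n : ℝ) - 2))) ^ (((n : ℝ) - 2) / (n : ℝ)) ≤
      4 * ((n : ℝ) - 1) / ((n : ℝ) - 2) * ∫ x, ‖fderiv ℝ u x‖ ^ 2 := by
  obtain ⟨m, rfl⟩ : ∃ m, n = m + 1 := ⟨n - 1, by omega⟩
  have hm : 2 ≤ m := by omega
  have hm' : (2 : ℝ) ≤ m := by exact_mod_cast hm
  have hpp : 2 * (((m + 1 : ℕ)) : ℝ) / ((((m + 1 : ℕ)) : ℝ) - 2) = pp m := by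
    unfold pp; push_cast; congr 1; ring
  have hcn : 4 * ((((m + 1 : ℕ)) : ℝ) - 1) / ((((m + 1 : ℕ)) : ℝ) - 2) = cn m := by
    unfold cn; push_cast; congr 1 <;> ring
  have h2p : ((((m + 1 : ℕ)) : ℝ) - 2) / (((m + 1 : ℕ)) : ℝ) = 2 / pp m := by
    unfold pp; push_cast
    have : (m : ℝ) - 1 ≠ 0 := by linarith
    have : (m : ℝ) + 1 ≠ 0 := by linarith
    field_simp
    ring
  rw [hpp, hcn, h2p]
  have hp0 : 0 < pp m := by
    unfold pp
    apply div_pos <;> linarith
  have hcn0 : 0 < cn m := by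
    unfold cn
    apply div_pos <;> linarith
  -- the function F
  have hFc : Continuous (fun x => |u x| ^ pp m) :=
    hu.continuous.abs.rpow_const (fun x => Or.inr hp0.le)
  have hFs : HasCompactSupport (fun x => |u x| ^ pp m) := by
    refine hc.comp_left (g := fun t : ℝ => |t| ^ pp m) ?_
    simp [hp0.ne']
  have hFi : Integrable (fun x => |u x| ^ pp m) := hFc.integrable_of_hasCompactSupport hFs
  obtain ⟨L, hL⟩ : ∃ L : ℝ, ∀ y, L < ‖y‖ → |u y| ^ pp m = 0 := by
    obtain ⟨L, hL⟩ := hc.isCompact.isBounded.subset_closedBall 0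
    refine ⟨L, fun y hy => ?_⟩
    have : u y = 0 := by
      by_contra h
      have h1 := hL (subset_tsupport u h)
      rw [mem_closedBall_zero_iff] at h1
      linarith
    rw [this]
    simp [hp0.ne']
  obtain ⟨c, hc1, hc2⟩ := exists_cut (fun x => |u x| ^ pp m) hFi (fun y => by positivity) L hL
  set A := ∫ x, |u x| ^ pp m with hA
  have hA0 : 0 ≤ A := integral_nonneg (fun y => by positivity)
  -- the gradient
  have hGc : Continuous (fun x => ‖fderiv ℝ u x‖ ^ 2) :=
    ((hu.continuous_fderiv (by norm_num)).norm.pow 2)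
  have hGi : Integrable (fun x => ‖fderiv ℝ u x‖ ^ 2) := by
    refine hGc.integrable_of_hasCompactSupport ?_
    refine (hc.fderiv (𝕜 := ℝ)).comp_left (g := fun t : V (m + 1) →L[ℝ] ℝ => ‖t‖ ^ 2) ?_
    simp
  have hpi : Real.pi / 2 ∈ Icc (0 : ℝ) (Real.pi / 2) := ⟨by positivity, le_refl _⟩
  have hb0 : bmod m (Real.pi / 2) = 0 := by simp [bmod]
  -- first half
  have H1 := halfspace_sharp m hm (Real.pi / 2) hpi (fun x => u (x + c • e0 m))
    ((hu.comp (contDiff_id.add contDiff_const)).contDiffOn) (by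
      have := hc.comp_homeomorph (Homeomorph.addRight (c • e0 m))
      exact this)
  rw [hb0, zero_mul, add_zero, int_add c (fun x => |u x| ^ pp m), hc1] at H1
  have E1 : ∫ x in Ho m, ‖fderivWithin ℝ (fun x => u (x + c • e0 m)) (Hs m) x‖ ^ 2
      = ∫ y in {y | c < y 0}, ‖fderiv ℝ u y‖ ^ 2 := by
    rw [← int_add c (fun x => ‖fderiv ℝ u x‖ ^ 2)]
    refine setIntegral_congr_fun (Ho_meas m) (fun x hx => ?_)
    rw [fderivWithin_of_mem_nhds (Ho_nhds hx), fderiv_comp_add_right]
  rw [E1] at H1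
  -- second half
  have H2 := halfspace_sharp m hm (Real.pi / 2) hpi (fun x => u (c • e0 m - x))
    ((hu.comp (contDiff_const.sub contDiff_id)).contDiffOn) (by
      have := hc.comp_homeomorph (Homeomorph.subLeft (c • e0 m))
      exact this)
  rw [hb0, zero_mul, add_zero, int_sub c (fun x => |u x| ^ pp m), hc2] at H2
  have E2 : ∫ x in Ho m, ‖fderivWithin ℝ (fun x => u (c • e0 m - x)) (Hs m) x‖ ^ 2
      = ∫ y in {y | y 0 < c}, ‖fderiv ℝ u y‖ ^ 2 := by
    rw [← int_sub c (fun x => ‖fderiv ℝ u x‖ ^ 2)]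
    refine setIntegral_congr_fun (Ho_meas m) (fun x hx => ?_)
    rw [fderivWithin_of_mem_nhds (Ho_nhds hx)]
    have hd : HasFDerivAt (fun x => u (c • e0 m - x))
        ((fderiv ℝ u (c • e0 m - x)).comp (-(ContinuousLinearMap.id ℝ (V (m + 1))))) x := by
      refine HasFDerivAt.comp x ((hu.differentiable (by norm_num)) _).hasFDerivAt ?_
      exact (hasFDerivAt_id x).const_sub (c • e0 m)
    rw [hd.fderiv]
    congr 1
    rw [ContinuousLinearMap.comp_neg, ContinuousLinearMap.comp_id, norm_neg]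
  rw [E2] at H2
  -- total energy
  have hE : (∫ y in {y : V (m + 1) | c < y 0}, ‖fderiv ℝ u y‖ ^ 2)
      + (∫ y in {y : V (m + 1) | y 0 < c}, ‖fderiv ℝ u y‖ ^ 2) ≤ ∫ y, ‖fderiv ℝ u y‖ ^ 2 := by
    rw [← setIntegral_union ?_ (meas_lt m c) hGi.integrableOn hGi.integrableOn]
    · exact setIntegral_le_integral hGi (Eventually.of_forall (fun y => by positivity))
    · rw [Set.disjoint_left]
      intro y hy hy'
      have h1 : c < y 0 := hy
      have h2 : y 0 < c := hy'
      exact lt_asymm h1 h2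
  have hsum : 2 * (amod m (Real.pi / 2) * (A / 2) ^ (2 / pp m)) ≤ cn m * ∫ y, ‖fderiv ℝ u y‖ ^ 2 := by
    have := mul_le_mul_of_nonneg_left hE hcn0.le
    rw [mul_add] at this
    linarith
  refine le_trans (le_of_eq ?_) hsum
  -- constants
  unfold amod Yn
  rw [S1.wallis]
  have hom : 0 < om (m + 1) := S1.om_pos (m + 1)
  rw [Real.div_rpow hA0 (by norm_num), Real.div_rpow hom.le (by norm_num)]
  have e1 : (2 : ℝ) / (((m + 1 : ℕ)) : ℝ) = 2 / ((m : ℝ) + 1) := by push_cast; rfl
  rw [e1]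
  have e2 : (2 : ℝ) ^ (2 / ((m : ℝ) + 1)) * 2 ^ (2 / pp m) = 2 := by
    rw [← Real.rpow_add (by norm_num)]
    have : 2 / ((m : ℝ) + 1) + 2 / pp m = 1 := by
      unfold pp
      have h1 : (m : ℝ) - 1 ≠ 0 := by linarith
      have h2 : (m : ℝ) + 1 ≠ 0 := by linarith
      field_simp
      ring
    rw [this, Real.rpow_one]
  have p1 : (0 : ℝ) < 2 ^ (2 / ((m : ℝ) + 1)) := by positivity
  have p2 : (0 : ℝ) < 2 ^ (2 / pp m) := by positivity
  push_cast
  have e3 : (2 : ℝ) * ((m : ℝ) * ((m : ℝ) + 1) * (om (m + 1) ^ (2 / ((m : ℝ) + 1)) / 2 ^ (2 / ((m : ℝ) + 1)))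
      * (A ^ (2 / pp m) / 2 ^ (2 / pp m)))
      = (m : ℝ) * ((m : ℝ) + 1) * om (m + 1) ^ (2 / ((m : ℝ) + 1)) * A ^ (2 / pp m)
        * (2 / (2 ^ (2 / ((m : ℝ) + 1)) * 2 ^ (2 / pp m))) := by
    field_simp
  rw [e3, e2]
  ring

end Pool.Agent.CY
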