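import Pool.Agent.CY.S1.Half
import Pool.Agent.CY.S1.SobS
import Pool.Agent.CY.S6.Bubble

/-!
Project CY, part S1 (complete): `halfspace_sharp`, `sobolev_sharp`, `sobolev_almost`.
-/

set_option autoImplicit false

open scoped ContDiff
open MeasureTheory Set

namespace Pool.Agent.CY

/-- S1c: almost optimal functions with compact support. -/
theorem sobolev_almost (n : ℕ) (hn : 3 ≤ n) (ε : ℝ) (hε : 0 < ε) :
    ∃ u : V n → ℝ, ContDiff ℝ ∞ u ∧ HasCompactSupport u ∧ (∀ x, 0 ≤ u x) ∧ u ≠ 0 ∧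
      4 * ((n : ℝ) - 1) / ((n : ℝ) - 2) * ∫ x, ‖fderiv ℝ u x‖ ^ 2 ≤
      (Yn n + ε) * (∫ x, |u x| ^ (2 * (n : ℝ) / ((n : ℝ) - 2))) ^ (((n : ℝ) - 2) / (n : ℝ)) :=
  S6.sobolev_almost n hn ε hε

end Pool.Agent.CY
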