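import Mathlib

/-!
Project CY, part S1, module Fub: Fubini on boxes of `Fin (N+1) → ℝ`, singling out the coordinate `i`.

PROOF PLAN.  As in `torusIntegral_succAbove` (Mathlib/MeasureTheory/Integral/TorusIntegral.lean):
`e := (MeasurableEquiv.piFinSuccAbove (fun _ => ℝ) i).symm` is measure preserving
(`volume_preserving_piFinSuccAbove`), `e ⁻¹' Icc a b = Icc (a i) (b i) ×ˢ Icc (i.removeNth a) (i.removeNth b)`
(`(Fin.insertNthOrderIso (fun _ => ℝ) i).preimage_Icc`, `Icc_prod_eq`), then `setIntegral_prod` (for the
first formula `setIntegral_prod_swap`/`integral_prod_symm` or swap the product), `Set.Icc` versus interval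
integral: `intervalIntegral.integral_of_le`, `integral_Icc_eq_integral_Ioc`.  Integrability: `F` is
continuous on the compact set `Icc a b`.
-/

set_option autoImplicit false

open MeasureTheory Set Function

namespace Pool.Agent.CY.S1

theorem box_fubini (N : ℕ) (i : Fin (N + 1)) (a b : Fin (N + 1) → ℝ) (hab : ∀ j, a j ≤ b j)
    (F : (Fin (N + 1) → ℝ) → ℝ) (hF : ContinuousOn F (Icc a b)) :
    (∫ x in Icc a b, F x =
      ∫ z in Icc (i.removeNth a) (i.removeNth b), ∫ s in (a i)..(b i), F (i.insertNth s z)) ∧
    (∫ x in Icc a b, F x =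
      ∫ s in (a i)..(b i), ∫ z in Icc (i.removeNth a) (i.removeNth b), F (i.insertNth s z)) := by
  set e : ℝ × (Fin N → ℝ) ≃ᵐ (Fin (N + 1) → ℝ) :=
    (MeasurableEquiv.piFinSuccAbove (fun _ => ℝ) i).symm with he
  have hem : MeasurePreserving e :=
    (volume_preserving_piFinSuccAbove (fun _ : Fin (N + 1) => ℝ) i).symm _
  have hea : ∀ s z, e (s, z) = i.insertNth s z := fun s z => rfl
  have heπ : (e ⁻¹' Icc a b) = Icc (a i) (b i) ×ˢ Icc (i.removeNth a) (i.removeNth b) := by
    have := ((Fin.insertNthOrderIso (fun _ => ℝ) i).preimage_Icc a b).trans (Icc_prod_eq _ _)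
    exact this
  have hint : IntegrableOn F (Icc a b) := hF.integrableOn_compact isCompact_Icc
  have hint2 : IntegrableOn (fun p : ℝ × (Fin N → ℝ) => F (i.insertNth p.1 p.2))
      (Icc (a i) (b i) ×ˢ Icc (i.removeNth a) (i.removeNth b)) (volume.prod volume) := by
    have := (hem.integrableOn_comp_preimage e.measurableEmbedding (s := Icc a b) (f := F)).2 hint
    rw [heπ] at this
    exact this
  have h0 : ∫ x in Icc a b, F x =
      ∫ p in Icc (a i) (b i) ×ˢ Icc (i.removeNth a) (i.removeNth b), F (i.insertNth p.1 p.2)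
        ∂(volume.prod volume) := by
    rw [← hem.map_eq, setIntegral_map_equiv, heπ]
    rfl
  constructor
  · have h3 : Integrable (fun p : ℝ × (Fin N → ℝ) => F (i.insertNth p.1 p.2))
        ((volume.restrict (Icc (a i) (b i))).prod
          (volume.restrict (Icc (i.removeNth a) (i.removeNth b)))) := by
      rw [Measure.prod_restrict]; exact hint2
    rw [h0, ← Measure.prod_restrict, integral_prod_symm _ h3]
    refine setIntegral_congr_fun measurableSet_Icc fun z _ => ?_
    rw [intervalIntegral.integral_of_le (hab i), ← integral_Icc_eq_integral_Ioc]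
  · rw [h0, setIntegral_prod _ hint2, intervalIntegral.integral_of_le (hab i),
      ← integral_Icc_eq_integral_Ioc]

end Pool.Agent.CY.S1
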