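import Pool.Agent.CY.S1.Base

/-!
Project CY, part S1, module Tang: the tangency computation.

PROOF PLAN.  Notation: `ω = om n > 0`, `W = ω ∫_0^t sin^n > 0`, `S = ω sin^n t`, `τ = cos t / sin t ≥ 0`,
`K = 2^(-(n+1)) W`, `J = 2^(-n) ω ∫_0^t sin^(n-2)`.  Integration by parts (derivative of `sin^(n-1) cos`, or
`integral_sin_pow`): `(n-1) ∫_0^t sin^(n-2) = n ∫_0^t sin^n + sin^(n-1) t cos t`, so
`2^n J = (n W + τ S)/(n-1)`.  Put `x = I^(1/(n+1)) > 0`, `σ = s / x^n ≥ 0`, `D' = D / x^(n-1)`, `w = W^(1/(n+1)) > 0` (so `W = w^(n+1)`).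
`(I/K)^(n/(n+1)) = x^n 2^n / w^n`; `(J-K)/K = 2^(n+1) J / W - 1 = ((n+1) W + 2 τ S)/((n-1) W) =: G₂ > 0`.
Dividing the hypothesis by `x^n` and squaring: `(X + τ σ)^2 ≤ qq^2 D' G₂`, `X = (n+1)(n W + τ S)/((n-1) w^n) ≥ 0`.
With `s₀ = S / w^n`: `X + τ s₀ = n w G₂`, hence `(X+τσ)^2 ≥ (n w G₂)^2 + 2 n w G₂ τ (σ - s₀)` and, `cn/qq^2 = (n-1)/n`,
`cn D' ≥ n(n-1) w^2 G₂ + 2 (n-1) w τ (σ - s₀) = n(n+1) w^2 + 2 n τ w s₀ + 2(n-1) w τ (σ - s₀)`
`     = n(n+1) w^2 + 2 τ w ((n-1) σ + s₀)`   (use `w^2 G₂ (n-1) = (n+1) w^2 + 2 τ S / w^(n-1)`).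
Weighted AM-GM with `θ = (n-1)/n`: `σ^θ s₀^(1/n) ≤ θ σ + s₀/n`, and `S^(1/n) = ω^(1/n) sin t`,
`s₀^(1/n) = ω^(1/n) sin t / w`: `2 n ω^(1/n) cos t σ^θ = 2 n τ ω^(1/n) sin t σ^θ = 2 n τ w s₀^(1/n) σ^θ ≤ 2 τ w ((n-1)σ + s₀)`.
So `n(n+1) w^2 + bmod n t * σ^θ ≤ cn D'`; multiply by `x^(n-1)`: `2/pp n = (n-1)/(n+1)`, `2/qq n = (n-1)/n`,
`I^(2/pp n) = x^(n-1)`, `s^(2/qq n) = σ^θ x^(n-1)`, `amod n t = n(n+1) w^2`.
-/

set_option autoImplicit false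

open MeasureTheory Set Function

namespace Pool.Agent.CY.S1

theorem om_pos' (m : ℕ) : 0 < om m := by
  unfold om
  have h : (0 : ℝ) < ((m : ℝ) + 1) / 2 := by positivity
  have := Real.Gamma_pos_of_pos h
  positivity

/-- `(n-1) ∫_0^t sin^(n-2) = n ∫_0^t sin^n + sin^(n-1) t cos t`. -/
theorem sin_rec (n : ℕ) (hn : 2 ≤ n) (t : ℝ) :
    ((n : ℝ) - 1) * ∫ x in (0 : ℝ)..t, Real.sin x ^ (n - 2) =
      (n : ℝ) * (∫ x in (0 : ℝ)..t, Real.sin x ^ n) + Real.sin t ^ (n - 1) * Real.cos t := by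
  obtain ⟨m, rfl⟩ : ∃ m, n = m + 2 := ⟨n - 2, by omega⟩
  have h := integral_sin_pow (a := 0) (b := t) m
  simp only [show m + 2 - 2 = m by omega, show m + 2 - 1 = m + 1 by omega]
  rw [h]
  push_cast
  have hm : (m : ℝ) + 2 ≠ 0 := by positivity
  simp only [Real.sin_zero]
  field_simp
  ring

/-- the algebra of the tangency -/
theorem tang_alg (n : ℝ) (hn : 2 ≤ n) (w Wn S τ s0 G X σ D' q c : ℝ) (hw : 0 < w) (hWn : 0 < Wn)
    (hS : 0 ≤ S) (hτ : 0 ≤ τ) (hs0 : s0 = S / Wn)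
    (hG : G = ((n + 1) * (w * Wn) + 2 * τ * S) / ((n - 1) * (w * Wn)))
    (hX : X = (n + 1) * (n * (w * Wn) + τ * S) / ((n - 1) * Wn))
    (hq : q = 2 * n / (n - 1)) (hc : c = 4 * n / (n - 1))
    (h : (X + τ * σ) ^ 2 ≤ q ^ 2 * D' * G) :
    n * (n + 1) * w ^ 2 + 2 * τ * w * ((n - 1) * σ + s0) ≤ c * D' := by
  have hn1 : 0 < n - 1 := by linarith
  have hGp : 0 < G := by
    rw [hG]; positivity
  have hP : X + τ * s0 = n * w * G := by
    rw [hX, hG, hs0]; field_simp; ring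
  have hsq : (n * w * G) ^ 2 + 2 * (n * w * G) * (τ * (σ - s0)) ≤ (X + τ * σ) ^ 2 := by
    have : X + τ * σ = n * w * G + τ * (σ - s0) := by rw [← hP]; ring
    rw [this]; nlinarith [sq_nonneg (τ * (σ - s0))]
  have h2 : (n * w * G) ^ 2 + 2 * (n * w * G) * (τ * (σ - s0)) ≤ q ^ 2 * D' * G := hsq.trans h
  have h3 : n ^ 2 * w ^ 2 * G + 2 * n * w * (τ * (σ - s0)) ≤ q ^ 2 * D' := by
    have : (n ^ 2 * w ^ 2 * G + 2 * n * w * (τ * (σ - s0))) * G ≤ q ^ 2 * D' * G := by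
      nlinarith [h2]
    exact le_of_mul_le_mul_right this hGp
  have h4 : c * D' = (n - 1) / n * (q ^ 2 * D') := by
    rw [hc, hq]; field_simp; ring
  have h5 : (n - 1) / n * (n ^ 2 * w ^ 2 * G + 2 * n * w * (τ * (σ - s0))) =
      n * (n + 1) * w ^ 2 + 2 * τ * w * ((n - 1) * σ + s0) := by
    rw [hG, hs0]; field_simp; ring
  rw [h4, ← h5]
  exact mul_le_mul_of_nonneg_left h3 (by positivity)

theorem tang (n : ℕ) (hn : 2 ≤ n) (t : ℝ) (ht0 : 0 < t) (ht1 : t ≤ Real.pi / 2) (I s D K J : ℝ)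
    (hI : 0 < I) (hs : 0 ≤ s) (hD : 0 ≤ D)
    (hK : K = (2 : ℝ) ^ (-((n : ℝ) + 1)) * (om n * ∫ x in (0 : ℝ)..t, Real.sin x ^ n))
    (hJ : J = (2 : ℝ) ^ (-(n : ℝ)) * (om n * ∫ x in (0 : ℝ)..t, Real.sin x ^ (n - 2)))
    (h : ((n : ℝ) + 1) * (I / K) ^ ((n : ℝ) / ((n : ℝ) + 1)) * J + Real.cos t / Real.sin t * s ≤
      qq n * Real.sqrt D * Real.sqrt (I / K * (J - K))) :
    amod n t * I ^ (2 / pp n) + bmod n t * s ^ (2 / qq n) ≤ cn n * D := by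
  have hn' : (2 : ℝ) ≤ n := by exact_mod_cast hn
  have hn1 : (0 : ℝ) < (n : ℝ) - 1 := by linarith
  have hn0 : (0 : ℝ) < n := by linarith
  have hst : 0 < Real.sin t := Real.sin_pos_of_pos_of_lt_pi ht0 (by linarith [Real.pi_pos])
  have hct : 0 ≤ Real.cos t := Real.cos_nonneg_of_mem_Icc ⟨by linarith [Real.pi_pos], ht1⟩
  have hom := om_pos' n
  have hsin : 0 < ∫ x in (0 : ℝ)..t, Real.sin x ^ n := by
    apply intervalIntegral.intervalIntegral_pos_of_pos_on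
    · exact ((Real.continuous_sin.pow n)).intervalIntegrable _ _
    · intro x hx
      exact pow_pos (Real.sin_pos_of_pos_of_lt_pi hx.1 (by linarith [Real.pi_pos, hx.2])) n
    · exact ht0
  obtain ⟨W, hW⟩ : ∃ W, W = om n * ∫ x in (0 : ℝ)..t, Real.sin x ^ n := ⟨_, rfl⟩
  obtain ⟨S, hS⟩ : ∃ S, S = om n * Real.sin t ^ n := ⟨_, rfl⟩
  obtain ⟨τ, hτe⟩ : ∃ τ, τ = Real.cos t / Real.sin t := ⟨_, rfl⟩
  have hWp : 0 < W := by rw [hW]; positivity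
  have hSp : 0 < S := by rw [hS]; positivity
  have hτ : 0 ≤ τ := by rw [hτe]; positivity
  have hτs : τ * Real.sin t = Real.cos t := by rw [hτe]; field_simp
  have hτS : om n * (Real.sin t ^ (n - 1) * Real.cos t) = τ * S := by
    obtain ⟨m, rfl⟩ : ∃ m, n = m + 1 := ⟨n - 1, by omega⟩
    rw [hS, ← hτs]
    simp only [Nat.add_sub_cancel]
    ring
  have hJ2 : J = (2 : ℝ) ^ (-(n : ℝ)) * (((n : ℝ) * W + τ * S) / ((n : ℝ) - 1)) := by
    rw [hJ]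
    congr 1
    rw [eq_div_iff hn1.ne', ← hτS, hW]
    have := sin_rec n hn t
    linear_combination (om n) * this
  -- the roots
  obtain ⟨x, hx⟩ : ∃ x, x = I ^ ((1 : ℝ) / ((n : ℝ) + 1)) := ⟨_, rfl⟩
  obtain ⟨w, hw⟩ : ∃ w, w = W ^ ((1 : ℝ) / ((n : ℝ) + 1)) := ⟨_, rfl⟩
  have hxp : 0 < x := by rw [hx]; positivity
  have hwp : 0 < w := by rw [hw]; positivity
  have hxI : x ^ (n + 1) = I := by
    rw [hx, ← Real.rpow_natCast, ← Real.rpow_mul hI.le]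
    push_cast
    rw [one_div_mul_cancel (by positivity), Real.rpow_one]
  have hwW : w ^ (n + 1) = W := by
    rw [hw, ← Real.rpow_natCast, ← Real.rpow_mul hWp.le]
    push_cast
    rw [one_div_mul_cancel (by positivity), Real.rpow_one]
  have hwW' : w * w ^ n = W := by rw [← hwW]; ring
  have h2n : (2 : ℝ) ^ (-(n : ℝ)) = ((2 : ℝ) ^ n)⁻¹ := by
    rw [Real.rpow_neg (by norm_num), Real.rpow_natCast]
  have h2n1 : (2 : ℝ) ^ (-((n : ℝ) + 1)) = ((2 : ℝ) ^ (n + 1))⁻¹ := by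
    rw [Real.rpow_neg (by norm_num)]
    congr 1
    rw [← Real.rpow_natCast]; push_cast; rfl
  have hK2 : K = ((2 : ℝ) ^ (n + 1))⁻¹ * W := by rw [hK, h2n1, hW]
  have hKp : 0 < K := by rw [hK2]; positivity
  have hIK : I / K = (2 * x / w) ^ (n + 1) := by
    rw [hK2, ← hxI, ← hwW, div_pow, mul_pow]
    field_simp
  have hIKn : (I / K) ^ ((n : ℝ) / ((n : ℝ) + 1)) = (2 * x / w) ^ n := by
    rw [hIK, ← Real.rpow_natCast, ← Real.rpow_mul (by positivity)]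
    push_cast
    rw [mul_div_cancel₀ _ (by positivity), Real.rpow_natCast]
  obtain ⟨G, hG⟩ : ∃ G, G = (((n : ℝ) + 1) * (w * w ^ n) + 2 * τ * S) / (((n : ℝ) - 1) * (w * w ^ n)) :=
    ⟨_, rfl⟩
  have hGp : 0 < G := by rw [hG]; positivity
  have hJK : I / K * (J - K) = x ^ (n + 1) * G := by
    rw [hG, hwW', hJ2, h2n, hK2, hxI]
    field_simp
    ring
  obtain ⟨X, hX⟩ : ∃ X, X = ((n : ℝ) + 1) * ((n : ℝ) * (w * w ^ n) + τ * S) / (((n : ℝ) - 1) * w ^ n) :=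
    ⟨_, rfl⟩
  obtain ⟨σ, hσ⟩ : ∃ σ, σ = s / x ^ n := ⟨_, rfl⟩
  have hσ0 : 0 ≤ σ := by rw [hσ]; positivity
  have hsσ : s = σ * x ^ n := by rw [hσ]; field_simp
  obtain ⟨D', hD'⟩ : ∃ D', D' = D / x ^ (n - 1) := ⟨_, rfl⟩
  have hD0 : 0 ≤ D' := by rw [hD']; positivity
  have hDD : D = D' * x ^ (n - 1) := by rw [hD']; field_simp
  have hL : ((n : ℝ) + 1) * (I / K) ^ ((n : ℝ) / ((n : ℝ) + 1)) * J + Real.cos t / Real.sin t * s =
      x ^ n * (X + τ * σ) := by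
    rw [hIKn, hJ2, h2n, ← hτe, hX, hwW', hsσ, div_pow, mul_pow]
    field_simp
  have hXp : 0 ≤ X := by rw [hX]; positivity
  have hqq : 0 < qq n := by unfold qq; positivity
  have hmain : (X + τ * σ) ^ 2 ≤ qq n ^ 2 * D' * G := by
    rw [hL, hJK] at h
    have h0 : 0 ≤ x ^ n * (X + τ * σ) := by positivity
    have h1 := pow_le_pow_left₀ h0 h 2
    rw [mul_pow, mul_pow, mul_pow, Real.sq_sqrt hD, Real.sq_sqrt (by positivity), hDD] at h1
    have h2 : qq n ^ 2 * (D' * x ^ (n - 1)) * (x ^ (n + 1) * G) =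
        (x ^ n) ^ 2 * (qq n ^ 2 * D' * G) := by
      have : x ^ (n - 1) * x ^ (n + 1) = (x ^ n) ^ 2 := by
        rw [← pow_add, ← pow_mul]; congr 1; omega
      linear_combination (qq n ^ 2 * D' * G) * this
    rw [h2] at h1
    exact le_of_mul_le_mul_left h1 (by positivity)
  have halg := tang_alg (n : ℝ) hn' w (w ^ n) S τ (S / w ^ n) G X σ D' (qq n) (cn n) hwp (by positivity)
    hSp.le hτ rfl hG hX rfl rfl hmain
  -- weighted AM-GM
  have hs0 : (S / w ^ n) ^ ((1 : ℝ) / (n : ℝ)) = om n ^ ((1 : ℝ) / (n : ℝ)) * Real.sin t / w := by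
    rw [Real.div_rpow hSp.le (by positivity), hS, Real.mul_rpow hom.le (by positivity),
      ← Real.rpow_natCast, ← Real.rpow_mul hst.le, ← Real.rpow_natCast, ← Real.rpow_mul hwp.le,
      mul_one_div_cancel hn0.ne', Real.rpow_one, Real.rpow_one]
  have hamgm := Real.geom_mean_le_arith_mean2_weighted (w₁ := ((n : ℝ) - 1) / n) (w₂ := 1 / (n : ℝ))
    (p₁ := σ) (p₂ := S / w ^ n) (by positivity) (by positivity) hσ0 (by positivity)
    (by field_simp; ring)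
  rw [hs0] at hamgm
  have hb : bmod n t * σ ^ (((n : ℝ) - 1) / n) ≤ 2 * τ * w * (((n : ℝ) - 1) * σ + S / w ^ n) := by
    have h1 := mul_le_mul_of_nonneg_left hamgm (show 0 ≤ 2 * (n : ℝ) * τ * w by positivity)
    have e1 : 2 * (n : ℝ) * τ * w * (σ ^ (((n : ℝ) - 1) / n) *
        (om n ^ ((1 : ℝ) / (n : ℝ)) * Real.sin t / w)) = bmod n t * σ ^ (((n : ℝ) - 1) / n) := by
      unfold bmod
      rw [← hτs]
      field_simp
    have e2 : 2 * (n : ℝ) * τ * w * (((n : ℝ) - 1) / n * σ + 1 / (n : ℝ) * (S / w ^ n)) =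
        2 * τ * w * (((n : ℝ) - 1) * σ + S / w ^ n) := by
      field_simp
    rw [e1, e2] at h1
    exact h1
  have ham : amod n t = (n : ℝ) * ((n : ℝ) + 1) * w ^ 2 := by
    unfold amod
    rw [← hW, hw, ← Real.rpow_natCast (W ^ _) 2, ← Real.rpow_mul hWp.le]
    congr 2
    push_cast; ring
  have hfin : amod n t + bmod n t * σ ^ (((n : ℝ) - 1) / n) ≤ cn n * D' := by
    rw [ham]; linarith
  have hIp : I ^ (2 / pp n) = x ^ (n - 1) := by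
    rw [hx, ← Real.rpow_natCast, ← Real.rpow_mul hI.le]
    congr 1
    unfold pp
    rw [Nat.cast_sub (by omega)]
    push_cast
    field_simp
  have hsp : s ^ (2 / qq n) = σ ^ (((n : ℝ) - 1) / n) * x ^ (n - 1) := by
    rw [hsσ, Real.mul_rpow hσ0 (by positivity)]
    have e : 2 / qq n = ((n : ℝ) - 1) / n := by
      unfold qq; field_simp
    rw [e]
    congr 1
    rw [← Real.rpow_natCast, ← Real.rpow_mul hxp.le, ← Real.rpow_natCast]
    congr 1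
    rw [Nat.cast_sub (by omega)]
    push_cast
    field_simp
  rw [hIp, hsp, hDD]
  have h3 := mul_le_mul_of_nonneg_right hfin (show 0 ≤ x ^ (n - 1) by positivity)
  calc _ = (amod n t + bmod n t * σ ^ (((n : ℝ) - 1) / n)) * x ^ (n - 1) := by ring
    _ ≤ cn n * D' * x ^ (n - 1) := h3
    _ = _ := by ring

end Pool.Agent.CY.S1
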