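import Pool.Agent.CY.S1.HalfBox
import Pool.Agent.CY.S1.Const
import Pool.Agent.CY.S1.Tang
import Pool.Agent.CY.S1.Wallis

/-!
Project CY, part S1, target S1a: the sharp two-parameter trace-Sobolev inequality on the half space.
-/

set_option autoImplicit false

open MeasureTheory Set Function Filter Topology

namespace Pool.Agent.CY

namespace S1

/-- The angle `t` and `τ = cot t`. -/
theorem ang (t : ℝ) (ht0 : 0 < t) (ht1 : t ≤ Real.pi / 2) :
    Real.pi / 2 - Real.arctan (Real.cos t / Real.sin t) = t := by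
  have h1 : Real.cos t / Real.sin t = Real.tan (Real.pi / 2 - t) := by
    rw [Real.tan_eq_sin_div_cos, Real.sin_pi_div_two_sub, Real.cos_pi_div_two_sub]
  rw [h1, Real.arctan_tan]
  · ring
  · linarith [Real.pi_pos]
  · linarith

theorem half_pos (n : ℕ) (hn : 2 ≤ n) (t : ℝ) (ht0 : 0 < t) (ht1 : t ≤ Real.pi / 2)
    (u : V (n + 1) → ℝ) (hu : ContDiffOn ℝ 1 u (Hs n)) (hc : HasCompactSupport u)
    (hI : 0 < ∫ x in Ho n, |u x| ^ pp n) :
    amod n t * (∫ x in Ho n, |u x| ^ pp n) ^ (2 / pp n) +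
      bmod n t * (∫ z : V n, |u (bd z)| ^ qq n) ^ (2 / qq n) ≤
    cn n * ∫ x in Ho n, ‖fderivWithin ℝ u (Hs n) x‖ ^ 2 := by
  have hst : 0 < Real.sin t := Real.sin_pos_of_pos_of_lt_pi ht0 (by linarith [Real.pi_pos])
  have hct : 0 ≤ Real.cos t := Real.cos_nonneg_of_mem_Icc ⟨by linarith [Real.pi_pos], ht1⟩
  have hτ : 0 ≤ Real.cos t / Real.sin t := div_nonneg hct hst.le
  have hang := ang t ht0 ht1
  obtain ⟨l1, l2, l3⟩ := box_limits n hn (Real.cos t / Real.sin t)
  rw [hang] at l1 l2 l3
  have hsin : ∀ k : ℕ, 0 < ∫ x in (0 : ℝ)..t, Real.sin x ^ k := by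
    intro k
    apply intervalIntegral.intervalIntegral_pos_of_pos_on
    · exact ((Real.continuous_sin.pow k)).intervalIntegrable _ _
    · intro x hx
      exact pow_pos (Real.sin_pos_of_pos_of_lt_pi hx.1 (by linarith [Real.pi_pos, hx.2])) k
    · exact ht0
  have hK : 0 < (2 : ℝ) ^ (-((n : ℝ) + 1)) * (om n * ∫ x in (0 : ℝ)..t, Real.sin x ^ n) :=
    mul_pos (by positivity) (mul_pos (om_pos n) (hsin n))
  have hpos : ∀ y : Fin (n + 1) → ℝ, 0 < (1 + rho n (Real.cos t / Real.sin t) y) ^ (-((n : ℝ) + 1)) :=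
    fun y => Real.rpow_pos_of_pos (by linarith [rho_nonneg n (Real.cos t / Real.sin t) y]) _
  have hcont : Continuous (fun y : Fin (n + 1) → ℝ =>
      (1 + rho n (Real.cos t / Real.sin t) y) ^ (-((n : ℝ) + 1))) := by
    refine (continuous_const.add (continuous_rho n _)).rpow_const fun y => Or.inl ?_
    have := rho_nonneg n (Real.cos t / Real.sin t) y
    exact (by linarith : (0 : ℝ) < 1 + rho n (Real.cos t / Real.sin t) y).ne'
  refine tang n hn t ht0 ht1 _ _ _ _ _ hI (integral_nonneg fun z => by positivity)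
    (integral_nonneg fun x => by positivity) rfl rfl ?_
  refine le_of_tendsto_of_tendsto (b := atTop) (f := fun R : ℝ =>
      ((n : ℝ) + 1) * ((∫ x in Ho n, |u x| ^ pp n) / (∫ y in Icc (bxa n R) (bxb n R),
        (1 + rho n (Real.cos t / Real.sin t) y) ^ (-((n : ℝ) + 1)))) ^ ((n : ℝ) / ((n : ℝ) + 1)) *
        (∫ y in Icc (bxa n R) (bxb n R),
          ((1 + rho n (Real.cos t / Real.sin t) y) ^ (-((n : ℝ) + 1))) ^ ((n : ℝ) / ((n : ℝ) + 1))) +
      Real.cos t / Real.sin t * (∫ z : V n, |u (bd z)| ^ qq n))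
    (g := fun R : ℝ => qq n * Real.sqrt (∫ x in Ho n, ‖fderivWithin ℝ u (Hs n) x‖ ^ 2) *
      Real.sqrt ((∫ x in Ho n, |u x| ^ pp n) / (∫ y in Icc (bxa n R) (bxb n R),
        (1 + rho n (Real.cos t / Real.sin t) y) ^ (-((n : ℝ) + 1))) *
        ∫ y in Icc (bxa n R) (bxb n R), rho n (Real.cos t / Real.sin t) y *
          (1 + rho n (Real.cos t / Real.sin t) y) ^ (-((n : ℝ) + 1)))) ?_ ?_ ?_
  · refine Tendsto.add_const _ (Tendsto.mul (Tendsto.const_mul _ ?_) l2)
    refine Tendsto.rpow_const (tendsto_const_nhds.div l1 hK.ne') (Or.inr (by positivity))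
  · refine Tendsto.const_mul _ ((Real.continuous_sqrt.tendsto _).comp ?_)
    exact (tendsto_const_nhds.div l1 hK.ne').mul l3
  · filter_upwards [eventually_gt_atTop (0 : ℝ)] with R hR
    exact half_box n hn u hu hc _ hτ R hR _ hcont hpos

end S1

/-- `amod` and `bmod` are continuous. -/
theorem continuous_amod (n : ℕ) : Continuous (amod n) := by
  unfold amod
  refine continuous_const.mul ?_
  refine Continuous.rpow_const ?_ (fun t => Or.inr (by positivity))
  refine continuous_const.mul ?_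
  exact intervalIntegral.continuous_primitive (fun a b => (Real.continuous_sin.pow n).intervalIntegrable a b) 0

theorem continuous_bmod (n : ℕ) : Continuous (bmod n) := by
  unfold bmod
  fun_prop

theorem isOpen_Ho (n : ℕ) : IsOpen (Ho n) := by
  have : Continuous fun x : V (n + 1) => x 0 := by fun_prop
  exact isOpen_lt continuous_const this

theorem isClosed_Hs (n : ℕ) : IsClosed (Hs n) := by
  have : Continuous fun x : V (n + 1) => x 0 := by fun_prop
  exact isClosed_le continuous_const this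

theorem Ho_subset_Hs (n : ℕ) : Ho n ⊆ Hs n := fun x (hx : 0 < x 0) => show 0 ≤ x 0 from hx.le

theorem bd_mem_Hs {n : ℕ} (z : V n) : bd z ∈ Hs n := by
  show 0 ≤ (bd z : V (n + 1)) 0
  simp [bd, cons]

theorem bd_mem_closure {n : ℕ} (z : V n) : bd z ∈ closure (Ho n) := by
  rw [Metric.mem_closure_iff]
  intro ε hε
  refine ⟨cons (ε / 2) z, ?_, ?_⟩
  · show 0 < (cons (ε / 2) z : V (n + 1)) 0
    simp [cons]; exact hε
  · rw [EuclideanSpace.dist_eq, Fin.sum_univ_succ]
    simp [bd, cons, abs_of_pos hε]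
    rw [Real.sqrt_sq (by positivity)]
    linarith

theorem integrableOn_rpow {n : ℕ} {u : V (n + 1) → ℝ} (hu : ContinuousOn u (Hs n))
    (hc : HasCompactSupport u) (p : ℝ) (hp : 0 < p) : IntegrableOn (fun x => |u x| ^ p) (Hs n) := by
  have h1 : IntegrableOn (fun x => |u x| ^ p) (Hs n ∩ tsupport u) := by
    refine ContinuousOn.integrableOn_compact (hc.isCompact.inter_left (isClosed_Hs n)) ?_
    exact (hu.mono inter_subset_left).abs.rpow_const fun x _ => Or.inr hp.le
  have h2 : IntegrableOn (fun x => |u x| ^ p) (Hs n \ tsupport u) := by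
    refine (integrableOn_zero (μ := volume) (s := Hs n \ tsupport u)).congr_fun ?_
      ((isClosed_Hs n).measurableSet.diff (isClosed_tsupport u).measurableSet)
    intro x hx
    have : u x = 0 := image_eq_zero_of_notMem_tsupport hx.2
    simp [this, Real.zero_rpow hp.ne']
  have := h1.union h2
  rwa [inter_union_sdiff] at this

/-- S1a: the sharp two-parameter trace-Sobolev inequality on the half space. -/
theorem halfspace_sharp (n : ℕ) (hn : 2 ≤ n) (t : ℝ) (ht : t ∈ Icc (0 : ℝ) (Real.pi / 2))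
    (u : V (n + 1) → ℝ) (hu : ContDiffOn ℝ 1 u (Hs n)) (hc : HasCompactSupport u) :
    amod n t * (∫ x in Ho n, |u x| ^ pp n) ^ (2 / pp n) +
      bmod n t * (∫ z : V n, |u (bd z)| ^ qq n) ^ (2 / qq n) ≤
    cn n * ∫ x in Ho n, ‖fderivWithin ℝ u (Hs n) x‖ ^ 2 := by
  have hn' : (2 : ℝ) ≤ n := by exact_mod_cast hn
  have hpp : 0 < pp n := by unfold pp; apply div_pos <;> linarith
  have hqq : 0 < qq n := by unfold qq; apply div_pos <;> linarith
  have hcn : 0 < cn n := by unfold cn; apply div_pos <;> linarith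
  have hI0 : 0 ≤ ∫ x in Ho n, |u x| ^ pp n := integral_nonneg fun x => by positivity
  rcases hI0.lt_or_eq with hI | hI
  · rcases ht.1.lt_or_eq with h0 | h0
    · exact S1.half_pos n hn t h0 ht.2 u hu hc hI
    · subst h0
      have hlim : Tendsto (fun t : ℝ =>
        amod n t * (∫ x in Ho n, |u x| ^ pp n) ^ (2 / pp n) +
        bmod n t * (∫ z : V n, |u (bd z)| ^ qq n) ^ (2 / qq n)) (𝓝[>] 0)
          (𝓝 (amod n 0 * (∫ x in Ho n, |u x| ^ pp n) ^ (2 / pp n) +
        bmod n 0 * (∫ z : V n, |u (bd z)| ^ qq n) ^ (2 / qq n))) := by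
        refine Tendsto.mono_left ?_ nhdsWithin_le_nhds
        exact (((continuous_amod n).mul continuous_const).add
          ((continuous_bmod n).mul continuous_const)).tendsto 0
      refine le_of_tendsto hlim ?_
      filter_upwards [Ioo_mem_nhdsGT (show (0 : ℝ) < Real.pi / 2 by positivity)] with t ht
      exact S1.half_pos n hn t ht.1 ht.2.le u hu hc hI
  · have hae : ∀ᵐ x ∂(volume.restrict (Ho n)), |u x| ^ pp n = 0 := by
      have := (setIntegral_eq_zero_iff_of_nonneg_ae (μ := volume) (s := Ho n)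
        (f := fun x => |u x| ^ pp n) (ae_of_all _ fun x => by positivity)
        ((integrableOn_rpow hu.continuousOn hc _ hpp).mono_set (Ho_subset_Hs n))).1 hI.symm
      exact this
    have hz : ∀ x ∈ Ho n, u x = 0 := by
      have h1 : EqOn u (fun _ => (0 : ℝ)) (Ho n) := by
        refine Measure.eqOn_open_of_ae_eq (μ := volume) ?_ (isOpen_Ho n)
          (hu.continuousOn.mono (Ho_subset_Hs n)) continuousOn_const
        filter_upwards [hae] with x hx
        have := (Real.rpow_eq_zero (abs_nonneg _) hpp.ne').1 hx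
        simpa using this
      exact h1
    have hb : ∀ z : V n, u (bd z) = 0 := by
      intro z
      have hcl : closure (Ho n) ⊆ Hs n := (isClosed_Hs n).closure_subset_iff.2 (Ho_subset_Hs n)
      have h1 : EqOn u (fun _ => (0 : ℝ)) (closure (Ho n)) := by
        refine Set.EqOn.of_subset_closure (s := Ho n) (fun x hx => hz x hx)
          (hu.continuousOn.mono hcl) continuousOn_const subset_closure subset_rfl
      exact h1 (bd_mem_closure z)
    have e2 : (∫ z : V n, |u (bd z)| ^ qq n) = 0 := by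
      simp [hb, Real.zero_rpow hqq.ne']
    rw [← hI, e2, Real.zero_rpow (by positivity), Real.zero_rpow (by positivity)]
    have : 0 ≤ ∫ x in Ho n, ‖fderivWithin ℝ u (Hs n) x‖ ^ 2 := integral_nonneg fun x => by positivity
    simp only [mul_zero, add_zero]
    positivity

end Pool.Agent.CY
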