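import Pool.Agent.CY.S1.BoxIneq
import Pool.Agent.CY.S1.Coord

/-!
Project CY, part S1, module HalfBox: the transport inequality for `u` and a target density on a box.

PROOF PLAN.  Write `Q = Icc (bxa n L) (bxb n L)`, `Q' = Icc (bxa n R) (bxb n R)`, `I = ∫ x in Ho n, |u x| ^ pp n`,
`m = ∫ y in Q', G y > 0`.  Take `L, v, v'` from `coord` and `C` from `box_ineq` (boxes `Q`, `Q'`).  For `δ > 0` let
`f x = |v x| ^ pp n + δ`, `lam = (∫ x in Q, f x) / m` (`= (I + δ * vol Q) / m`), `g = lam * G`, `F = f ^ (n/(n+1))`,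
`F' x i = (n/(n+1)) * f x ^ (-1/(n+1)) * (pp n * |v x| ^ (pp n - 2) * v x * v' x i)` (`hasDerivAt_abs_rpow`, `pp n > 2`),
`ε = δ ^ (n/(n+1))`.  `box_ineq` gives
`(n+1) lam^(n/(n+1)) ∫_{Q'} G^(n/(n+1)) + τ ∫_z F(0,z) ≤ δ^(n/(n+1)) C + sqrt(∫_Q (∑ F'^2)/f) sqrt(lam ∫_{Q'} rho G)`.
Now `F(0,z) ≥ (|v|^pp)^(n/(n+1)) = |v|^qq` (`pp n * (n/(n+1)) = qq n`), and pointwise
`(∑ F' i^2)/f = (n/(n+1))^2 pp^2 f^(-2/(n+1)-1) |v|^(2pp-2) ∑ v' i^2 ≤ qq^2 ∑ v' i^2`, because
`|v|^(2pp-2) = (|v|^pp)^((2pp-2)/pp) ≤ f^((2pp-2)/pp)` and `(2pp-2)/pp = 1 + 2/(n+1)`.  Let `δ → 0+`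
(`le_of_tendsto_of_tendsto` along `𝓝[>] 0`; `lam → I/m`, real powers with positive exponent and `sqrt` are continuous).
-/

set_option autoImplicit false

open MeasureTheory Set Function

namespace Pool.Agent.CY.S1

theorem hb_exp (n : ℕ) (hn : 2 ≤ n) : 2 < pp n ∧ qq n = pp n * ((n : ℝ) / ((n : ℝ) + 1)) ∧ 0 < qq n ∧
    2 * pp n - 2 = pp n * (1 + 2 / ((n : ℝ) + 1)) := by
  have h2 : (2 : ℝ) ≤ n := by exact_mod_cast hn
  have h1 : (0 : ℝ) < (n : ℝ) - 1 := by linarith
  have h3 : (0 : ℝ) < (n : ℝ) + 1 := by linarith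
  refine ⟨?_, ?_, ?_, ?_⟩
  · rw [pp, lt_div_iff₀ h1]; linarith
  · rw [pp, qq]; field_simp
  · rw [qq]; positivity
  · rw [pp]; field_simp; ring

theorem hb_pt (n : ℕ) (hn : 2 ≤ n) (δ : ℝ) (hδ : 0 < δ) (t : ℝ) (w : Fin (n + 1) → ℝ) :
    (∑ i, (((n : ℝ) / ((n : ℝ) + 1)) * (|t| ^ pp n + δ) ^ ((n : ℝ) / ((n : ℝ) + 1) - 1) *
      (pp n * |t| ^ (pp n - 2) * t * w i)) ^ 2) / (|t| ^ pp n + δ) ≤ qq n ^ 2 * ∑ i, w i ^ 2 := by
  obtain ⟨hp, hq, hq0, hpe⟩ := hb_exp n hn
  set e : ℝ := (n : ℝ) / ((n : ℝ) + 1) with he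
  set p := pp n with hpdef
  set q := qq n with hqdef
  have h2 : (2 : ℝ) ≤ n := by exact_mod_cast hn
  have h3 : (0 : ℝ) < (n : ℝ) + 1 := by linarith
  have ht0 : 0 ≤ |t| := abs_nonneg t
  have htp : 0 ≤ |t| ^ p := Real.rpow_nonneg ht0 _
  set f : ℝ := |t| ^ p + δ with hf
  have hf0 : 0 < f := by positivity
  have hsum : ∑ i, (e * f ^ (e - 1) * (p * |t| ^ (p - 2) * t * w i)) ^ 2 =
      (e * f ^ (e - 1) * (p * |t| ^ (p - 2) * t)) ^ 2 * ∑ i, w i ^ 2 := by
    rw [Finset.mul_sum]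
    refine Finset.sum_congr rfl fun i _ => ?_
    ring
  rw [hsum, mul_div_right_comm]
  refine mul_le_mul_of_nonneg_right ?_ (Finset.sum_nonneg fun i _ => sq_nonneg _)
  rw [div_le_iff₀ hf0]
  -- `(f^(e-1))^2 * (|t|^(p-2) * t)^2 ≤ f`
  have hkey : (f ^ (e - 1)) ^ 2 * (|t| ^ (p - 2) * t) ^ 2 ≤ f := by
    have h4 : (|t| ^ (p - 2) * t) ^ 2 = |t| ^ (2 * p - 2) := by
      rcases eq_or_lt_of_le ht0 with h0 | h0
      · have : t = 0 := abs_eq_zero.1 h0.symm
        rw [this]
        simp only [mul_zero, abs_zero]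
        rw [Real.zero_rpow (by linarith)]
        norm_num
      · rw [mul_pow, ← sq_abs t, ← Real.rpow_natCast (|t| ^ (p - 2)) 2, ← Real.rpow_mul ht0,
          ← Real.rpow_natCast |t| 2, ← Real.rpow_add h0]
        congr 1
        push_cast
        ring
    have h5 : |t| ^ (2 * p - 2) ≤ f ^ (1 + 2 / ((n : ℝ) + 1)) := by
      rw [hpe, Real.rpow_mul ht0]
      apply Real.rpow_le_rpow htp (by rw [hf]; linarith)
      positivity
    have h6 : (f ^ (e - 1)) ^ 2 = f ^ (-(2 / ((n : ℝ) + 1))) := by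
      rw [← Real.rpow_natCast (f ^ (e - 1)) 2, ← Real.rpow_mul hf0.le]
      congr 1
      rw [he]
      push_cast
      field_simp
      ring
    rw [h4, h6]
    calc f ^ (-(2 / ((n : ℝ) + 1))) * |t| ^ (2 * p - 2)
        ≤ f ^ (-(2 / ((n : ℝ) + 1))) * f ^ (1 + 2 / ((n : ℝ) + 1)) :=
          mul_le_mul_of_nonneg_left h5 (Real.rpow_nonneg hf0.le _)
      _ = f := by
          rw [← Real.rpow_add hf0]
          have : -(2 / ((n : ℝ) + 1)) + (1 + 2 / ((n : ℝ) + 1)) = 1 := by ring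
          rw [this, Real.rpow_one]
  calc (e * f ^ (e - 1) * (p * |t| ^ (p - 2) * t)) ^ 2
      = (p * e) ^ 2 * ((f ^ (e - 1)) ^ 2 * (|t| ^ (p - 2) * t) ^ 2) := by ring
    _ ≤ (p * e) ^ 2 * f := mul_le_mul_of_nonneg_left hkey (sq_nonneg _)
    _ = q ^ 2 * f := by rw [hq]

theorem half_box (n : ℕ) (hn : 2 ≤ n) (u : V (n + 1) → ℝ) (hu : ContDiffOn ℝ 1 u (Hs n))
    (hc : HasCompactSupport u) (τ : ℝ) (hτ : 0 ≤ τ) (R : ℝ) (hR : 0 < R)
    (G : (Fin (n + 1) → ℝ) → ℝ) (hG : Continuous G) (hGp : ∀ y, 0 < G y) :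
    ((n : ℝ) + 1) * ((∫ x in Ho n, |u x| ^ pp n) / (∫ y in Icc (bxa n R) (bxb n R), G y)) ^
        ((n : ℝ) / ((n : ℝ) + 1)) *
        (∫ y in Icc (bxa n R) (bxb n R), G y ^ ((n : ℝ) / ((n : ℝ) + 1))) +
      τ * (∫ z : V n, |u (bd z)| ^ qq n) ≤
    qq n * Real.sqrt (∫ x in Ho n, ‖fderivWithin ℝ u (Hs n) x‖ ^ 2) *
      Real.sqrt ((∫ x in Ho n, |u x| ^ pp n) / (∫ y in Icc (bxa n R) (bxb n R), G y) *
        ∫ y in Icc (bxa n R) (bxb n R), rho n τ y * G y) := by
  obtain ⟨L, v, v', hL, hv, hv', hder, hfb, hfa, hIp, hIq, hD⟩ := coord n u hu hc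
  obtain ⟨hp, hq, hq0, hpe⟩ := hb_exp n hn
  obtain ⟨C, hC⟩ := box_ineq n (bxa n L) (bxb n L) (bxa n R) (bxb n R) (bxa_lt_bxb n L hL)
    (bxa_lt_bxb n R hR) (bxa_zero n R) τ hτ
  have h2 : (2 : ℝ) ≤ n := by exact_mod_cast hn
  have hn1 : (0 : ℝ) < (n : ℝ) + 1 := by linarith
  set e : ℝ := (n : ℝ) / ((n : ℝ) + 1) with he
  have he0 : 0 < e := by rw [he]; positivity
  rw [hIp (pp n) (by linarith), hIq (qq n) hq0]
  set p := pp n with hpdef
  set q := qq n with hqdef
  set Q := Icc (bxa n L) (bxb n L) with hQ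
  set Q' := Icc (bxa n R) (bxb n R) with hQ'
  set Z := Icc (fun _ : Fin n => -L) (fun _ => L) with hZ
  set I := ∫ x in Q, |v x| ^ p with hI
  set m := ∫ y in Q', G y with hm
  set J := ∫ z in Z, |v ((0 : Fin (n + 1)).insertNth 0 z)| ^ q with hJ
  set D := ∫ x in Ho n, ‖fderivWithin ℝ u (Hs n) x‖ ^ 2 with hDdef
  set M := ∫ y in Q', G y ^ e with hM
  set N := ∫ y in Q', rho n τ y * G y with hN
  have hcQ : IsCompact Q := isCompact_Icc
  have hcQ' : IsCompact Q' := isCompact_Icc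
  have hcZ : IsCompact Z := isCompact_Icc
  have hvolpos : ∀ S : ℝ, 0 < S → 0 < (volume (Icc (bxa n S) (bxb n S))).toReal := by
    intro S hS
    rw [Real.volume_Icc_pi_toReal (fun i => (bxa_lt_bxb n S hS i).le)]
    exact Finset.prod_pos fun i _ => sub_pos.2 (bxa_lt_bxb n S hS i)
  have hvQ := hvolpos L hL
  rw [← hQ] at hvQ
  have hm0 : 0 < m := by
    have hint : IntegrableOn G Q' := hG.continuousOn.integrableOn_compact hcQ'
    rw [hm, integral_pos_iff_support_of_nonneg_ae (Filter.Eventually.of_forall fun y => (hGp y).le) hint]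
    have hs : support G = univ := by
      ext y; simp [(hGp y).ne']
    rw [hs, Measure.restrict_apply_univ]
    have := hvolpos R hR
    rw [← hQ'] at this
    exact (ENNReal.toReal_pos_iff.1 this).1
  have hI0 : 0 ≤ I := integral_nonneg fun x => Real.rpow_nonneg (abs_nonneg _) _
  have hpc : Continuous fun x => |v x| ^ p := hv.abs.rpow_const fun x => Or.inr (by linarith)
  set vol := (volume Q).toReal with hvol
  -- the inequality for every `δ`
  have hδineq : ∀ δ : ℝ, 0 < δ →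
      ((n : ℝ) + 1) * ((I + δ * vol) / m) ^ e * M + τ * J ≤
        δ ^ e * C + q * Real.sqrt D * Real.sqrt ((I + δ * vol) / m * N) := by
    intro δ hδ
    set lam := (I + δ * vol) / m with hlam
    have hlam0 : 0 < lam := by rw [hlam]; positivity
    have hfpos : ∀ x, 0 < |v x| ^ p + δ := fun x =>
      add_pos_of_nonneg_of_pos (Real.rpow_nonneg (abs_nonneg _) _) hδ
    have hint1 : ∫ x in Q, (|v x| ^ p + δ) = I + δ * vol := by
      rw [integral_add (hpc.continuousOn.integrableOn_compact hcQ)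
        (integrableOn_const (by exact hcQ.measure_lt_top.ne))]
      rw [setIntegral_const, smul_eq_mul, mul_comm, ← hI]
      rfl
    have hfe : ∀ x, HasDerivAt (fun t : ℝ => (|t| ^ p + δ) ^ e)
        (e * (|x| ^ p + δ) ^ (e - 1) * (p * |x| ^ (p - 2) * x)) x := by
      intro x
      have h1 := (hasDerivAt_abs_rpow x (p := p) (by linarith)).add_const δ
      have h3 := h1.rpow_const (p := e) (Or.inl (ne_of_gt
        (add_pos_of_nonneg_of_pos (Real.rpow_nonneg (abs_nonneg x) _) hδ)))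
      convert! h3 using 1
      ring
    have hF'c : ContinuousOn (fun x i => e * (|v x| ^ p + δ) ^ (e - 1) *
        (p * |v x| ^ (p - 2) * v x * v' x i)) Q := by
      rw [continuousOn_pi]
      intro i
      have h1 : Continuous fun x => e * (|v x| ^ p + δ) ^ (e - 1) * (p * |v x| ^ (p - 2) * v x) := by
        have h3 : Continuous fun x => (|v x| ^ p + δ) ^ (e - 1) :=
          (hpc.add continuous_const).rpow_const fun x => Or.inl (hfpos x).ne'
        have h4 : Continuous fun x => |v x| ^ (p - 2) :=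
          hv.abs.rpow_const fun x => Or.inr (by linarith)
        exact (continuous_const.mul h3).mul ((continuous_const.mul h4).mul hv)
      have h5 : ContinuousOn (fun x => v' x i) Q := (continuousOn_pi.1 hv') i
      refine (h1.continuousOn.mul h5).congr fun x _ => ?_
      change _ = (e * (|v x| ^ p + δ) ^ (e - 1) * (p * |v x| ^ (p - 2) * v x)) * v' x i
      ring
    have hmain := hC (fun x => |v x| ^ p + δ) (fun y => lam * G y) (fun x => (|v x| ^ p + δ) ^ e)
      (fun x i => e * (|v x| ^ p + δ) ^ (e - 1) * (p * |v x| ^ (p - 2) * v x * v' x i)) (δ ^ e)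
      (hpc.add continuous_const) (continuous_const.mul hG) hfpos (fun y => mul_pos hlam0 (hGp y))
      (by
        rw [hint1, integral_const_mul, ← hm, hlam]
        field_simp)
      (fun x => rfl) hF'c
      (fun x hx i => by
        have h1 := hder x hx i
        have h3 := hfe (v (update x i (x i)))
        have h4 := h3.comp_hasDerivWithinAt (x i) h1
        rw [update_eq_self] at h4
        convert! h4 using 1
        ring)
      (fun x hx i hi => by
        rw [hfb x hx i hi, abs_zero, Real.zero_rpow (by linarith), zero_add])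
      (fun x hx i hi0 hi => by
        rw [hfa x hx i hi0 hi, abs_zero, Real.zero_rpow (by linarith), zero_add])
    -- left side
    have hL1 : ∫ y in Q', (lam * G y) ^ e = lam ^ e * M := by
      rw [hM, ← integral_const_mul]
      refine integral_congr_ae (Filter.Eventually.of_forall fun y => ?_)
      exact Real.mul_rpow hlam0.le (hGp y).le
    have hins : Continuous fun z : Fin n → ℝ => (0 : Fin (n + 1)).insertNth (α := fun _ => ℝ) (0 : ℝ) z := by
      exact (continuous_const (y := (0:ℝ))).finInsertNth (0 : Fin (n+1)) continuous_id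
    have hL2 : J ≤ ∫ z in Icc ((0 : Fin (n + 1)).removeNth (bxa n L))
        ((0 : Fin (n + 1)).removeNth (bxb n L)),
        (|v ((0 : Fin (n + 1)).insertNth (bxa n L 0) z)| ^ p + δ) ^ e := by
      rw [removeNth_bxa, removeNth_bxb, bxa_zero, hJ, hZ]
      refine setIntegral_mono_on ?_ ?_ measurableSet_Icc fun z _ => ?_
      · have : Continuous fun z : Fin n → ℝ => |v ((0 : Fin (n + 1)).insertNth 0 z)| ^ q :=
          (hv.comp hins).abs.rpow_const fun x => Or.inr hq0.le
        exact this.continuousOn.integrableOn_compact isCompact_Icc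
      · have : Continuous fun z : Fin n → ℝ => (|v ((0 : Fin (n + 1)).insertNth 0 z)| ^ p + δ) ^ e :=
          ((hpc.comp hins).add continuous_const).rpow_const fun x => Or.inr he0.le
        exact this.continuousOn.integrableOn_compact isCompact_Icc
      · have h5 : |v ((0 : Fin (n + 1)).insertNth 0 z)| ^ q =
            (|v ((0 : Fin (n + 1)).insertNth 0 z)| ^ p) ^ e := by
          rw [hq, Real.rpow_mul (abs_nonneg _)]
        rw [h5]
        exact Real.rpow_le_rpow (Real.rpow_nonneg (abs_nonneg _) _) (by linarith) he0.le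
    -- right side
    have hR1 : ∫ y in Q', rho n τ y * (lam * G y) = lam * N := by
      rw [hN, ← integral_const_mul]
      refine integral_congr_ae (Filter.Eventually.of_forall fun y => ?_)
      simp only
      ring
    have hR2 : ∫ x in Q, (∑ i, (e * (|v x| ^ p + δ) ^ (e - 1) *
        (p * |v x| ^ (p - 2) * v x * v' x i)) ^ 2) / (|v x| ^ p + δ) ≤ q ^ 2 * D := by
      have h6 : ∫ x in Q, (∑ i, (e * (|v x| ^ p + δ) ^ (e - 1) *
          (p * |v x| ^ (p - 2) * v x * v' x i)) ^ 2) / (|v x| ^ p + δ) ≤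
          ∫ x in Q, q ^ 2 * ∑ i, v' x i ^ 2 := by
        refine setIntegral_mono_on ?_ ?_ measurableSet_Icc fun x _ => hb_pt n hn δ hδ (v x) (v' x)
        · refine ContinuousOn.integrableOn_compact hcQ ?_
          refine ContinuousOn.div₀ ?_ (hpc.add continuous_const).continuousOn
            fun x _ => (hfpos x).ne'
          refine continuousOn_finsetSum _ fun i _ => ?_
          exact ((continuousOn_pi.1 hF'c) i).pow 2
        · refine ContinuousOn.integrableOn_compact hcQ ?_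
          refine continuousOn_const.fun_mul (continuousOn_finsetSum _ fun i _ => ?_)
          exact ((continuousOn_pi.1 hv') i).pow 2
      rw [integral_const_mul] at h6
      exact h6.trans (mul_le_mul_of_nonneg_left hD (sq_nonneg q))
    have hR3 : Real.sqrt (∫ x in Q, (∑ i, (e * (|v x| ^ p + δ) ^ (e - 1) *
        (p * |v x| ^ (p - 2) * v x * v' x i)) ^ 2) / (|v x| ^ p + δ)) ≤ q * Real.sqrt D := by
      refine (Real.sqrt_le_sqrt hR2).trans ?_
      rw [Real.sqrt_mul (sq_nonneg q), Real.sqrt_sq hq0.le]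
    rw [hL1, hR1] at hmain
    calc ((n : ℝ) + 1) * lam ^ e * M + τ * J
        ≤ ((n : ℝ) + 1) * (lam ^ e * M) + τ * (∫ z in Icc ((0 : Fin (n + 1)).removeNth (bxa n L))
        ((0 : Fin (n + 1)).removeNth (bxb n L)),
        (|v ((0 : Fin (n + 1)).insertNth (bxa n L 0) z)| ^ p + δ) ^ e) := by
          have := mul_le_mul_of_nonneg_left hL2 hτ
          linarith [mul_assoc ((n : ℝ) + 1) (lam ^ e) M]
      _ ≤ _ := hmain
      _ ≤ δ ^ e * C + q * Real.sqrt D * Real.sqrt (lam * N) := by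
          have := mul_le_mul_of_nonneg_right hR3 (Real.sqrt_nonneg (lam * N))
          linarith
  -- the limit
  have hlamc : Continuous fun δ : ℝ => (I + δ * vol) / m := by fun_prop
  have hlc : Continuous fun δ : ℝ => ((n : ℝ) + 1) * ((I + δ * vol) / m) ^ e * M + τ * J :=
    ((continuous_const.mul (hlamc.rpow_const fun _ => Or.inr he0.le)).mul continuous_const).add
      continuous_const
  have hrc : Continuous fun δ : ℝ =>
      δ ^ e * C + q * Real.sqrt D * Real.sqrt ((I + δ * vol) / m * N) :=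
    ((continuous_id.rpow_const fun _ => Or.inr he0.le).mul continuous_const).add
      (continuous_const.mul ((hlamc.mul continuous_const).sqrt))
  have hlt := (hlc.tendsto 0).mono_left (nhdsWithin_le_nhds (s := Ioi 0))
  have hrt := (hrc.tendsto 0).mono_left (nhdsWithin_le_nhds (s := Ioi 0))
  have hfin := le_of_tendsto_of_tendsto hlt hrt (by
    filter_upwards [self_mem_nhdsWithin] with δ hδ
    exact hδineq δ hδ)
  simp only [zero_mul, add_zero, Real.zero_rpow he0.ne', zero_add] at hfin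
  exact hfin

end Pool.Agent.CY.S1
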