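import Pool.Agent.CY.S1.Base
import Pool.Agent.CY.S1.Beta
import Pool.Agent.CY.S1.Cot

/-!
Project CY, part S1, module HalfInt: integrals over the half space.

PROOF PLAN.  Tonelli on `Fin (n+1) → ℝ ≃ ℝ × (Fin n → ℝ)` (`volume_preserving_piFinSuccAbove (fun _ => ℝ) 0`), the set
`{y | 0 < y 0}` becoming `Ioi 0 ×ˢ univ`.  For fixed `y₀ = s > 0` and `A = 1 + (s+τ)² > 0`:
`∫ z, (A + ∑ z i ^2)^(-α) = A^(n/2-α) ∫ z, (1 + ∑ z i^2)^(-α)` (substitute `z = √A w`:
`MeasureTheory.Measure.integral_comp_smul`/`integral_comp_mul_left`), with the value given by `beta_int`.  Then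
`∫ s in Ioi 0, (1 + (s+τ)^2)^(n/2-α) = ∫ y in Ioi τ, (1+y^2)^(n/2-α)` (translation,
`integral_comp_add_right`/`MeasurePreserving` of `x ↦ x + τ`).
With `α = k/2 + 1 + n/2` the exponent is `-(k/2+1)` and `cot_int` applies.  Integrability on the half space:
`MeasureTheory.integrable_prod_iff'` or finiteness of the lintegral.
-/

set_option autoImplicit false

open MeasureTheory Set Function

namespace Pool.Agent.CY.S1

/-- scaling of the beta integral -/
theorem beta_scale (n : ℕ) (α : ℝ) (hα : (n : ℝ) / 2 < α) (hα0 : 0 < α) (A : ℝ) (hA : 0 < A) :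
    Integrable (fun z : Fin n → ℝ => (A + ∑ i, z i ^ 2) ^ (-α)) ∧
    ∫ z : Fin n → ℝ, (A + ∑ i, z i ^ 2) ^ (-α) = A ^ ((n : ℝ) / 2 - α) *
      (Real.pi ^ ((n : ℝ) / 2) * Real.Gamma (α - (n : ℝ) / 2) / Real.Gamma α) := by
  obtain ⟨h1, h2⟩ := beta_int n α hα hα0
  have hs : 0 < Real.sqrt A := Real.sqrt_pos.2 hA
  have hfun : ∀ z : Fin n → ℝ, (A + ∑ i, (Real.sqrt A • z) i ^ 2) ^ (-α) =
      A ^ (-α) * (1 + ∑ i, z i ^ 2) ^ (-α) := by
    intro z
    rw [← Real.mul_rpow hA.le (by positivity)]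
    congr 1
    simp only [Pi.smul_apply, smul_eq_mul, mul_pow, Real.sq_sqrt hA.le]
    rw [← Finset.mul_sum]; ring
  constructor
  · rw [← integrable_comp_smul_iff volume _ hs.ne']
    simp only [hfun]
    exact h1.const_mul _
  · have h3 := Measure.integral_comp_smul (volume : Measure (Fin n → ℝ))
      (fun z => (A + ∑ i, z i ^ 2) ^ (-α)) (Real.sqrt A)
    simp only [hfun] at h3
    rw [integral_const_mul, h2] at h3
    simp only [Module.finrank_fintype_fun_eq_card, Fintype.card_fin, smul_eq_mul] at h3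
    have h4 : |((Real.sqrt A) ^ n)⁻¹| = A ^ (-((n : ℝ) / 2)) := by
      rw [abs_of_pos (by positivity), Real.sqrt_eq_rpow, ← Real.rpow_natCast, ← Real.rpow_mul hA.le,
        Real.rpow_neg hA.le]
      congr 2; ring
    rw [h4] at h3
    have h5 : A ^ (-((n : ℝ) / 2)) * A ^ ((n : ℝ) / 2) = 1 := by
      rw [← Real.rpow_add hA]; simp
    have h6 : A ^ ((n : ℝ) / 2 - α) = A ^ ((n : ℝ) / 2) * A ^ (-α) := by
      rw [← Real.rpow_add hA]; rfl
    rw [h6]
    linear_combination (-A ^ ((n : ℝ) / 2)) * h3 -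
      (∫ z : Fin n → ℝ, (A + ∑ i, z i ^ 2) ^ (-α)) * h5

theorem half_int (n k : ℕ) (τ : ℝ) (α : ℝ) (hα : α = (k : ℝ) / 2 + 1 + (n : ℝ) / 2) :
    IntegrableOn (fun y : Fin (n + 1) → ℝ => (1 + rho n τ y) ^ (-α)) {y | 0 < y 0} ∧
    ∫ y in {y : Fin (n + 1) → ℝ | 0 < y 0}, (1 + rho n τ y) ^ (-α) =
      Real.pi ^ ((n : ℝ) / 2) * Real.Gamma ((k : ℝ) / 2 + 1) / Real.Gamma α *
        ∫ s in (0 : ℝ)..(Real.pi / 2 - Real.arctan τ), Real.sin s ^ k := by
  have hα1 : (n : ℝ) / 2 < α := by rw [hα]; linarith [(by positivity : (0 : ℝ) ≤ (k : ℝ) / 2)]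
  have hα0 : 0 < α := lt_of_le_of_lt (by positivity) hα1
  set κ : ℝ := Real.pi ^ ((n : ℝ) / 2) * Real.Gamma ((k : ℝ) / 2 + 1) / Real.Gamma α with hκ
  have hαn : α - (n : ℝ) / 2 = (k : ℝ) / 2 + 1 := by rw [hα]; ring
  set e : ℝ × (Fin n → ℝ) ≃ᵐ (Fin (n + 1) → ℝ) :=
    (MeasurableEquiv.piFinSuccAbove (fun _ => ℝ) 0).symm with he
  have hem : MeasurePreserving e :=
    (volume_preserving_piFinSuccAbove (fun _ : Fin (n + 1) => ℝ) 0).symm _
  have hea : ∀ p : ℝ × (Fin n → ℝ), e p = (0 : Fin (n + 1)).insertNth p.1 p.2 := fun p => rfl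
  have hpre : e ⁻¹' {y : Fin (n + 1) → ℝ | 0 < y 0} = Ioi 0 ×ˢ univ := by
    ext p
    simp [hea]
  set H : ℝ × (Fin n → ℝ) → ℝ := fun p => ((1 + (p.1 + τ) ^ 2) + ∑ i, p.2 i ^ 2) ^ (-α) with hH
  have hHe : ∀ p, (1 + rho n τ (e p)) ^ (-α) = H p := by
    intro p
    simp only [hH, rho, hea]
    congr 1
    simp [add_assoc]
  have hHc : Continuous H := by
    refine Continuous.rpow_const (by fun_prop) fun p => Or.inl ?_
    have : 0 ≤ ∑ i, p.2 i ^ 2 := by positivity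
    positivity
  -- one-variable facts
  have hτ := cot_int k τ
  have hsh : ∀ s : ℝ, (∫ z : Fin n → ℝ, H (s, z)) = κ * (1 + (s + τ) ^ 2) ^ (-((k : ℝ) / 2 + 1)) := by
    intro s
    have := (beta_scale n α hα1 hα0 (1 + (s + τ) ^ 2) (by positivity)).2
    simp only [hH]
    rw [this, hαn, ← hκ, mul_comm]
    congr 2
    rw [← hαn]; ring
  have hemb := measurableEmbedding_addRight τ
  have hmp := measurePreserving_add_right (volume : Measure ℝ) τ
  have hpr : (fun s : ℝ => s + τ) ⁻¹' Ioi τ = Ioi 0 := by ext s; simp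
  have hint1 : IntegrableOn (fun s : ℝ => (1 + (s + τ) ^ 2) ^ (-((k : ℝ) / 2 + 1))) (Ioi 0) := by
    have := (hmp.integrableOn_comp_preimage hemb (s := Ioi τ)
      (f := fun y : ℝ => (1 + y ^ 2) ^ (-((k : ℝ) / 2 + 1)))).2 hτ.1
    rw [hpr] at this
    exact this
  have hval1 : ∫ s in Ioi (0 : ℝ), (1 + (s + τ) ^ 2) ^ (-((k : ℝ) / 2 + 1)) =
      ∫ s in (0 : ℝ)..(Real.pi / 2 - Real.arctan τ), Real.sin s ^ k := by
    have := hmp.setIntegral_preimage_emb hemb (fun y : ℝ => (1 + y ^ 2) ^ (-((k : ℝ) / 2 + 1))) (Ioi τ)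
    rw [hpr] at this
    rw [← hτ.2, ← this]
  have hprod : Integrable H ((volume.restrict (Ioi 0)).prod volume) := by
    rw [integrable_prod_iff hHc.aestronglyMeasurable]
    constructor
    · exact ae_of_all _ fun s => (beta_scale n α hα1 hα0 (1 + (s + τ) ^ 2) (by positivity)).1
    · have : ∀ s : ℝ, (∫ z : Fin n → ℝ, ‖H (s, z)‖) = κ * (1 + (s + τ) ^ 2) ^ (-((k : ℝ) / 2 + 1)) := by
        intro s
        rw [← hsh s]
        refine integral_congr_ae (ae_of_all _ fun z => ?_)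
        simp only
        rw [Real.norm_of_nonneg]
        exact Real.rpow_nonneg (by positivity) _
      simp only [this]
      exact hint1.const_mul κ
  have hrestr : (volume : Measure (ℝ × (Fin n → ℝ))).restrict (Ioi 0 ×ˢ univ) =
      (volume.restrict (Ioi 0)).prod volume := by
    rw [Measure.volume_eq_prod, ← Measure.prod_restrict, Measure.restrict_univ]
  constructor
  · have h1 := (hem.integrableOn_comp_preimage e.measurableEmbedding
      (s := {y : Fin (n + 1) → ℝ | 0 < y 0}) (f := fun y => (1 + rho n τ y) ^ (-α)))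
    rw [← h1, hpre]
    have h2 : (fun y : Fin (n + 1) → ℝ => (1 + rho n τ y) ^ (-α)) ∘ e = H := funext hHe
    rw [h2, IntegrableOn, hrestr]
    exact hprod
  · rw [← hem.setIntegral_preimage_emb e.measurableEmbedding, hpre]
    simp only [hHe]
    rw [hrestr, integral_prod _ hprod]
    simp only [hsh]
    rw [integral_const_mul, hval1]

end Pool.Agent.CY.S1
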